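import Pool.Agent.TH218.LS.Slice2
set_option autoImplicit false

/-! # The slice inequality in all dimensions (helper77)
(adapted from `Pool.Agent.TH218.LS.Slice2`, which is the case of the plane) -/

open MeasureTheory Set
open scoped ENNReal

namespace Pool.Agent.R77.LSB

open Pool.Agent.TH280.LS
open Pool.Agent.TH218.LS (nr_nonneg ftm_decay strip geom_sum)

variable {m : ℕ}

lemma norm_le_nrm (η : Fin m → ℝ) : ‖η‖ ≤ nr η := by
  rw [pi_norm_le_iff_of_nonneg (nr_nonneg η)]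
  intro i
  rw [Real.norm_eq_abs, ← Real.sqrt_sq_eq_abs]
  unfold nr
  exact Real.sqrt_le_sqrt (Finset.single_le_sum (f := fun i => η i ^ 2)
    (fun i _ => sq_nonneg _) (Finset.mem_univ i))

lemma nrm_le_norm (η : Fin m → ℝ) : nr η ≤ m * ‖η‖ := by
  unfold nr
  rw [Real.sqrt_le_left (by positivity)]
  have h1 : ∑ i, η i ^ 2 ≤ ∑ _i : Fin m, ‖η‖ ^ 2 := by
    refine Finset.sum_le_sum fun i _ => ?_
    rw [← sq_abs]
    exact pow_le_pow_left₀ (abs_nonneg _) (norm_le_pi_norm η i) 2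
  rw [Finset.sum_const, Finset.card_univ, Fintype.card_fin, nsmul_eq_mul] at h1
  refine h1.trans ?_
  have h2 : (m : ℝ) ≤ (m : ℝ) ^ 2 := by
    rcases Nat.eq_zero_or_pos m with h | h
    · subst h; simp
    · have : (1 : ℝ) ≤ m := by exact_mod_cast h
      nlinarith
  nlinarith [sq_nonneg ‖η‖]

/-- shells -/
def Shm (m : ℕ) (R : ℝ) : Set (Fin m → ℝ) := {η | R ≤ ‖η‖ ∧ ‖η‖ ≤ 2 * R}

lemma measurable_Shm (R : ℝ) : MeasurableSet (Shm m R) := by
  have hc : Continuous (fun η : Fin m → ℝ => ‖η‖) := continuous_norm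
  exact (measurableSet_le measurable_const hc.measurable).inter
    (measurableSet_le hc.measurable measurable_const)

lemma shellm_L2 {G : (Fin m → ℝ) → ℂ} {A V : ℝ} (hG : Integrable G) (hA : ∀ᵐ y, ‖G y‖ ≤ A)
    (hV : ∀ h : Fin m → ℝ, ∫⁻ y : Fin m → ℝ, ‖G (y + h) - G y‖ₑ ≤ ENNReal.ofReal (V * nr h))
    (R : ℝ) (hR : 0 < R) (hA0 : 0 ≤ A) (hV0 : 0 ≤ V) :
    ∫⁻ η in Shm m R, ‖ftm m G η‖ₑ ^ 2 ≤ ENNReal.ofReal (m * (A * V / (4 * R))) := by
  have hsub : Shm m R ⊆ ⋃ i : Fin m, {η : Fin m → ℝ | R ≤ |η i| ∧ |η i| ≤ 2 * R} := by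
    rintro η ⟨h1, h2⟩
    by_contra hcon
    have : ‖η‖ < R := by
      rw [pi_norm_lt_iff hR]
      intro i
      by_contra hc
      rw [not_lt] at hc
      exact hcon (mem_iUnion.2 ⟨i, hc, (norm_le_pi_norm η i).trans h2⟩)
    linarith
  refine (lintegral_mono_set hsub).trans ((lintegral_iUnion_le _ _).trans ?_)
  rw [tsum_fintype]
  refine (Finset.sum_le_sum fun i _ => strip hG hA hV i R hR hA0).trans (le_of_eq ?_)
  rw [Finset.sum_const, Finset.card_univ, Fintype.card_fin, nsmul_eq_mul,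
    ENNReal.ofReal_mul (by positivity), ENNReal.ofReal_natCast]

lemma kpm_pos (s2 : ℝ) (η : Fin m → ℝ) : 0 < kp m s2 η := by
  unfold kp
  have := nr_nonneg η
  positivity

lemma kpm_le_one {s2 : ℝ} (hs : 0 ≤ s2) (η : Fin m → ℝ) : kp m s2 η ≤ 1 := by
  unfold kp
  have := nr_nonneg η
  exact Real.rpow_le_one_of_one_le_of_nonpos (by linarith) (by linarith)

lemma enorm_split (F : ℂ) {p : ℝ} (hp : 2 < p) :
    ‖F‖ₑ ^ p = ENNReal.ofReal (‖F‖ ^ (p - 2)) * ‖F‖ₑ ^ 2 := by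
  rw [← ofReal_norm, ENNReal.ofReal_rpow_of_nonneg (norm_nonneg _) (by linarith),
    ← ENNReal.ofReal_pow (norm_nonneg _), ← ENNReal.ofReal_mul (by positivity)]
  congr 1
  rw [← Real.rpow_natCast (‖F‖) 2,
    ← Real.rpow_add_of_nonneg (norm_nonneg _) (by linarith) (by norm_num)]
  congr 1
  push_cast; ring

/-- high frequencies -/
lemma shellm_high (hm : 1 ≤ m) {G : (Fin m → ℝ) → ℂ} {A V D : ℝ} (hG : Integrable G)
    (hA : ∀ᵐ y, ‖G y‖ ≤ A)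
    (hV : ∀ h : Fin m → ℝ, ∫⁻ y : Fin m → ℝ, ‖G (y + h) - G y‖ₑ ≤ ENNReal.ofReal (V * nr h))
    (hD : ∀ η : Fin m → ℝ, nr η ^ ((m : ℝ) / 2) * ‖ftm m G η‖ ≤ D)
    (p s2 : ℝ) (hp2 : 2 < p) (hs2 : 0 ≤ s2)
    (R : ℝ) (hR : 0 < R) (hA0 : 0 ≤ A) (hV0 : 0 ≤ V) (hD0 : 0 ≤ D) :
    ∫⁻ η in Shm m R, ENNReal.ofReal ((nr η ^ m) ^ (p - 2) * kp m s2 η ^ p) *
      ‖ftm m G η‖ₑ ^ p ≤
      ENNReal.ofReal ((((2 * m : ℝ) ^ m) ^ (p - 2) * m) * (D ^ (p - 2) * (A * V)) *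
        R ^ ((m : ℝ) / 2 * (p - 2) - 1 - s2 * p)) := by
  have hm0 : (0 : ℝ) < m := by exact_mod_cast hm
  set c : ℝ := ((2 * m * R) ^ m) ^ (p - 2) * R ^ (-(s2 * p)) *
    (D / R ^ ((m : ℝ) / 2)) ^ (p - 2) with hc
  have hRm : 0 < R ^ ((m : ℝ) / 2) := by positivity
  have hc0 : 0 ≤ c := by positivity
  have hpt : ∀ η ∈ Shm m R, ENNReal.ofReal ((nr η ^ m) ^ (p - 2) * kp m s2 η ^ p) *
      ‖ftm m G η‖ₑ ^ p ≤ ENNReal.ofReal c * ‖ftm m G η‖ₑ ^ 2 := by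
    rintro η ⟨h1, h2⟩
    have hn1 : R ≤ nr η := h1.trans (norm_le_nrm η)
    have hn2 : nr η ≤ 2 * m * R := (nrm_le_norm η).trans (by nlinarith)
    have hnp : 0 < nr η := by linarith
    have hF : ‖ftm m G η‖ ≤ D / R ^ ((m : ℝ) / 2) := by
      rw [le_div_iff₀ hRm, mul_comm]
      refine le_trans ?_ (hD η)
      exact mul_le_mul_of_nonneg_right (Real.rpow_le_rpow hR.le hn1 (by positivity))
        (norm_nonneg _)
    rw [enorm_split _ hp2, ← mul_assoc, ← ENNReal.ofReal_mul (by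
      have := (kpm_pos s2 η).le
      positivity)]
    refine mul_le_mul_left (ENNReal.ofReal_le_ofReal ?_) _
    have h3 : (nr η ^ m) ^ (p - 2) ≤ ((2 * m * R) ^ m) ^ (p - 2) :=
      Real.rpow_le_rpow (by positivity) (pow_le_pow_left₀ hnp.le hn2 _) (by linarith)
    have h4 : kp m s2 η ^ p ≤ R ^ (-(s2 * p)) := by
      have h5 : kp m s2 η ≤ R ^ (-s2) := by
        unfold kp
        exact Real.rpow_le_rpow_of_nonpos hR (by linarith) (by linarith)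
      have h6 := Real.rpow_le_rpow (kpm_pos s2 η).le h5 (by linarith : (0 : ℝ) ≤ p)
      rwa [← Real.rpow_mul hR.le, neg_mul] at h6
    have h7 : ‖ftm m G η‖ ^ (p - 2) ≤ (D / R ^ ((m : ℝ) / 2)) ^ (p - 2) :=
      Real.rpow_le_rpow (norm_nonneg _) hF (by linarith)
    refine mul_le_mul (mul_le_mul h3 h4 ?_ (by positivity)) h7 (by positivity) (by positivity)
    exact Real.rpow_nonneg (kpm_pos s2 η).le _
  refine (setLIntegral_mono' (measurable_Shm R) hpt).trans ?_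
  rw [lintegral_const_mul' _ _ ENNReal.ofReal_ne_top]
  refine (mul_le_mul_right (shellm_L2 hG hA hV R hR hA0 hV0) _).trans ?_
  rw [← ENNReal.ofReal_mul hc0]
  refine ENNReal.ofReal_le_ofReal ?_
  have e1 : ((2 * m * R) ^ m) ^ (p - 2) = ((2 * m : ℝ) ^ m) ^ (p - 2) *
      R ^ ((m : ℝ) * (p - 2)) := by
    rw [mul_pow, Real.mul_rpow (by positivity) (by positivity), ← Real.rpow_natCast R m,
      ← Real.rpow_mul hR.le]
  have e2 : (D / R ^ ((m : ℝ) / 2)) ^ (p - 2) = D ^ (p - 2) * R ^ (-((m : ℝ) / 2 * (p - 2))) := by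
    rw [Real.div_rpow hD0 hRm.le, ← Real.rpow_mul hR.le, Real.rpow_neg hR.le]
    rfl
  have e3 : R ^ ((m : ℝ) / 2 * (p - 2) - 1 - s2 * p) =
      R ^ ((m : ℝ) * (p - 2)) * R ^ (-((m : ℝ) / 2 * (p - 2))) * R ^ (-(s2 * p)) * R⁻¹ := by
    rw [← Real.rpow_neg_one R, ← Real.rpow_add hR, ← Real.rpow_add hR, ← Real.rpow_add hR]
    congr 1; ring
  rw [hc, e1, e2, e3]
  have h12 : 0 ≤ ((2 * m : ℝ) ^ m) ^ (p - 2) * R ^ ((m : ℝ) * (p - 2)) * R ^ (-(s2 * p)) *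
      (D ^ (p - 2) * R ^ (-((m : ℝ) / 2 * (p - 2)))) * (m * (A * V)) * R⁻¹ := by positivity
  calc ((2 * m : ℝ) ^ m) ^ (p - 2) * R ^ ((m : ℝ) * (p - 2)) * R ^ (-(s2 * p)) *
      (D ^ (p - 2) * R ^ (-((m : ℝ) / 2 * (p - 2)))) * (m * (A * V / (4 * R)))
      = 1 / 4 * (((2 * m : ℝ) ^ m) ^ (p - 2) * R ^ ((m : ℝ) * (p - 2)) * R ^ (-(s2 * p)) *
      (D ^ (p - 2) * R ^ (-((m : ℝ) / 2 * (p - 2)))) * (m * (A * V)) * R⁻¹) := by
        field_simp
    _ ≤ 1 * (((2 * m : ℝ) ^ m) ^ (p - 2) * R ^ ((m : ℝ) * (p - 2)) * R ^ (-(s2 * p)) *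
      (D ^ (p - 2) * R ^ (-((m : ℝ) / 2 * (p - 2)))) * (m * (A * V)) * R⁻¹) :=
        mul_le_mul_of_nonneg_right (by norm_num) h12
    _ = _ := by ring

/-- low frequencies -/
lemma shellm_low (hm : 1 ≤ m) {G : (Fin m → ℝ) → ℂ} {V D : ℝ} (hG : Integrable G)
    (hV : ∀ h : Fin m → ℝ, ∫⁻ y : Fin m → ℝ, ‖G (y + h) - G y‖ₑ ≤ ENNReal.ofReal (V * nr h))
    (hD : ∀ η : Fin m → ℝ, nr η ^ ((m : ℝ) / 2) * ‖ftm m G η‖ ≤ D)
    (p s2 : ℝ) (hp2 : 2 < p) (hs2 : 0 ≤ s2)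
    (R : ℝ) (hR : 0 < R) (hV0 : 0 ≤ V) (hD0 : 0 ≤ D) :
    ∫⁻ η in Shm m R, ENNReal.ofReal ((nr η ^ m) ^ (p - 2) * kp m s2 η ^ p) *
      ‖ftm m G η‖ₑ ^ p ≤
      ENNReal.ofReal (((2 * m : ℝ) ^ |(m : ℝ) / 2 * (p - 2) - 2| * 4 ^ m) *
        (D ^ (p - 2) * V ^ 2) * R ^ ((m : ℝ) / 2 * (p - 2) - 2 + m)) := by
  have hm0 : (0 : ℝ) < m := by exact_mod_cast hm
  have hm1 : (1 : ℝ) ≤ m := by exact_mod_cast hm
  set a : ℝ := (m : ℝ) / 2 * (p - 2) - 2 with ha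
  have hpt : ∀ η ∈ Shm m R, ENNReal.ofReal ((nr η ^ m) ^ (p - 2) * kp m s2 η ^ p) *
      ‖ftm m G η‖ₑ ^ p ≤
      ENNReal.ofReal (D ^ (p - 2) * V ^ 2 * ((2 * m : ℝ) ^ |a| * R ^ a)) := by
    rintro η ⟨h1, h2⟩
    have hn1 : R ≤ nr η := h1.trans (norm_le_nrm η)
    have hn2 : nr η ≤ 2 * m * R := (nrm_le_norm η).trans (by nlinarith)
    have hnp : 0 < nr η := by linarith
    have hnm : 0 < nr η ^ ((m : ℝ) / 2) := by positivity
    have hdec : ‖ftm m G η‖ ≤ V / nr η := (ftm_decay hG hV η hnp hV0).trans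
      (div_le_div_of_nonneg_left hV0 hnp (by linarith))
    have hF : ‖ftm m G η‖ ≤ D / nr η ^ ((m : ℝ) / 2) := by
      rw [le_div_iff₀ hnm, mul_comm]
      exact hD η
    rw [enorm_split _ hp2, ← ofReal_norm, ← ENNReal.ofReal_pow (norm_nonneg _),
      ← ENNReal.ofReal_mul (by positivity), ← ENNReal.ofReal_mul (by
        have := (kpm_pos s2 η).le
        positivity)]
    refine ENNReal.ofReal_le_ofReal ?_
    have h3 : kp m s2 η ^ p ≤ 1 :=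
      Real.rpow_le_one (kpm_pos s2 η).le (kpm_le_one hs2 η) (by linarith)
    have h4 : ‖ftm m G η‖ ^ (p - 2) ≤ (D / nr η ^ ((m : ℝ) / 2)) ^ (p - 2) :=
      Real.rpow_le_rpow (norm_nonneg _) hF (by linarith)
    have h5 : ‖ftm m G η‖ ^ 2 ≤ (V / nr η) ^ 2 := pow_le_pow_left₀ (norm_nonneg _) hdec 2
    have h6 : nr η ^ a ≤ (2 * m : ℝ) ^ |a| * R ^ a := by
      rcases le_total 0 a with h0 | h0
      · rw [abs_of_nonneg h0, ← Real.mul_rpow (by positivity) hR.le]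
        exact Real.rpow_le_rpow hnp.le hn2 h0
      · have h7 : nr η ^ a ≤ R ^ a := Real.rpow_le_rpow_of_nonpos hR hn1 h0
        have h8 : (1 : ℝ) ≤ (2 * m : ℝ) ^ |a| :=
          Real.one_le_rpow (by linarith) (abs_nonneg _)
        have h9 : 0 ≤ R ^ a := by positivity
        nlinarith
    calc (nr η ^ m) ^ (p - 2) * kp m s2 η ^ p * (‖ftm m G η‖ ^ (p - 2) * ‖ftm m G η‖ ^ 2)
        ≤ (nr η ^ m) ^ (p - 2) * 1 *
            ((D / nr η ^ ((m : ℝ) / 2)) ^ (p - 2) * (V / nr η) ^ 2) := by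
          refine mul_le_mul (mul_le_mul_of_nonneg_left h3 (by positivity))
            (mul_le_mul h4 h5 (by positivity) (by positivity)) (by positivity) (by positivity)
      _ = D ^ (p - 2) * V ^ 2 * nr η ^ a := by
          have e1 : (nr η ^ m) ^ (p - 2) = nr η ^ ((m : ℝ) * (p - 2)) := by
            rw [← Real.rpow_natCast (nr η) m, ← Real.rpow_mul hnp.le]
          have e2 : (D / nr η ^ ((m : ℝ) / 2)) ^ (p - 2) =
              D ^ (p - 2) * nr η ^ (-((m : ℝ) / 2 * (p - 2))) := by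
            rw [Real.div_rpow hD0 hnm.le, ← Real.rpow_mul hnp.le, Real.rpow_neg hnp.le]
            rfl
          have e3 : (V / nr η) ^ 2 = V ^ 2 * nr η ^ (-2 : ℝ) := by
            rw [div_pow, Real.rpow_neg hnp.le]
            norm_num
            rfl
          have e4 : nr η ^ a = nr η ^ ((m : ℝ) * (p - 2)) *
              nr η ^ (-((m : ℝ) / 2 * (p - 2))) * nr η ^ (-2 : ℝ) := by
            rw [← Real.rpow_add hnp, ← Real.rpow_add hnp]
            congr 1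
            rw [ha]; ring
          rw [e1, e2, e3, e4]
          ring
      _ ≤ D ^ (p - 2) * V ^ 2 * ((2 * m : ℝ) ^ |a| * R ^ a) :=
          mul_le_mul_of_nonneg_left h6 (by positivity)
  refine (setLIntegral_mono' (measurable_Shm R) hpt).trans ?_
  rw [setLIntegral_const]
  have hvol : volume (Shm m R) ≤ ENNReal.ofReal (4 ^ m * R ^ m) := by
    have hsub : Shm m R ⊆ Metric.closedBall 0 (2 * R) := by
      rintro η ⟨h1, h2⟩
      rwa [mem_closedBall_zero_iff]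
    refine (measure_mono hsub).trans ?_
    rw [Real.volume_pi_closedBall _ (by positivity)]
    refine ENNReal.ofReal_le_ofReal (le_of_eq ?_)
    simp only [Fintype.card_fin]
    rw [← mul_pow]
    congr 1; ring
  refine (mul_le_mul_right hvol _).trans ?_
  rw [← ENNReal.ofReal_mul (by positivity)]
  refine ENNReal.ofReal_le_ofReal (le_of_eq ?_)
  have h5 : R ^ (a + m) = R ^ a * R ^ m := by
    rw [← Real.rpow_natCast R m, ← Real.rpow_add hR]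
  rw [h5]
  ring

/-- the slice inequality -/
theorem slicem (hm : 2 ≤ m) (p s2 : ℝ) (hp2 : 2 < p) (hs2 : 0 ≤ s2)
    (hs : (m : ℝ) / 2 * (1 - 2 / p) - 1 / p < s2) :
    ∃ C : ℝ, 0 < C ∧ ∀ (G : (Fin m → ℝ) → ℂ) (A V D : ℝ), Integrable G → (∀ᵐ y, ‖G y‖ ≤ A) →
    (∀ h : Fin m → ℝ, ∫⁻ y : Fin m → ℝ, ‖G (y + h) - G y‖ₑ ≤ ENNReal.ofReal (V * nr h)) →
    (∀ η : Fin m → ℝ, nr η ^ ((m : ℝ) / 2) * ‖ftm m G η‖ ≤ D) →
    0 ≤ A → 0 ≤ V → 0 ≤ D →
    ∫⁻ η : Fin m → ℝ, ENNReal.ofReal ((nr η ^ m) ^ (p - 2) * kp m s2 η ^ p) *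
      ‖ftm m G η‖ₑ ^ p ≤ ENNReal.ofReal (C * (D ^ (p - 2) * V * (A + V))) := by
  have hp0 : 0 < p := by linarith
  have hm1 : 1 ≤ m := by omega
  have hm2 : (2 : ℝ) ≤ m := by exact_mod_cast hm
  have hneg : (m : ℝ) / 2 * (p - 2) - 1 - s2 * p < 0 := by
    have h1 : ((m : ℝ) / 2 * (1 - 2 / p) - 1 / p) * p < s2 * p := mul_lt_mul_of_pos_right hs hp0
    have h2 : ((m : ℝ) / 2 * (1 - 2 / p) - 1 / p) * p = (m : ℝ) / 2 * (p - 2) - 1 := by
      field_simp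
    linarith
  have hpos : 0 < (m : ℝ) / 2 * (p - 2) - 2 + m := by nlinarith
  set q : ℝ := (2 : ℝ) ^ ((m : ℝ) / 2 * (p - 2) - 1 - s2 * p) with hq
  have hq0 : 0 ≤ q := by positivity
  have hq1 : q < 1 := Real.rpow_lt_one_of_one_lt_of_neg (by norm_num) hneg
  set q' : ℝ := (2 : ℝ) ^ (-((m : ℝ) / 2 * (p - 2) - 2 + m)) with hq'
  have hq0' : 0 ≤ q' := by positivity
  have hq1' : q' < 1 := Real.rpow_lt_one_of_one_lt_of_neg (by norm_num) (by linarith)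
  set K1 : ℝ := ((2 * m : ℝ) ^ m) ^ (p - 2) * m with hK1
  set K2 : ℝ := (2 * m : ℝ) ^ |(m : ℝ) / 2 * (p - 2) - 2| * 4 ^ m with hK2
  have hK1p : 0 < K1 := by
    have : (0 : ℝ) < m := by linarith
    positivity
  have hK2p : 0 < K2 := by
    have : (0 : ℝ) < m := by linarith
    positivity
  refine ⟨K1 / (1 - q) + K2 / (1 - q'), ?_, ?_⟩
  · have : 0 < 1 - q := by linarith
    have : 0 < 1 - q' := by linarith
    positivity
  intro G A V D hG hA hV hD hA0 hV0 hD0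
  have hcov : (Set.univ : Set (Fin m → ℝ)) ⊆
      {0} ∪ ((⋃ k : ℕ, Shm m (2 ^ k)) ∪ (⋃ k : ℕ, Shm m ((2 ^ (k + 1))⁻¹))) := by
    intro η _
    by_cases h0 : η = 0
    · left; exact h0
    right
    have hpos : 0 < ‖η‖ := norm_pos_iff.2 h0
    rcases le_total 1 ‖η‖ with h1 | h1
    · left
      obtain ⟨n, hn1, hn2⟩ := exists_nat_pow_near h1 (by norm_num : (1 : ℝ) < 2)
      refine mem_iUnion.2 ⟨n, hn1, hn2.le.trans (le_of_eq ?_)⟩
      rw [pow_succ]; ring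
    · right
      have h2 : 1 ≤ ‖η‖⁻¹ := (one_le_inv₀ hpos).2 h1
      obtain ⟨n, hn1, hn2⟩ := exists_nat_pow_near h2 (by norm_num : (1 : ℝ) < 2)
      refine mem_iUnion.2 ⟨n, ?_, ?_⟩
      · rw [inv_le_comm₀ (by positivity) hpos]
        exact hn2.le
      · have h3 : ‖η‖ ≤ (2 ^ n)⁻¹ := by
          rw [le_inv_comm₀ hpos (by positivity)]
          exact hn1
        refine h3.trans (le_of_eq ?_)
        rw [pow_succ]
        field_simp
  have : Nonempty (Fin m) := ⟨⟨0, by omega⟩⟩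
  set f : (Fin m → ℝ) → ℝ≥0∞ := fun η =>
    ENNReal.ofReal ((nr η ^ m) ^ (p - 2) * kp m s2 η ^ p) * ‖ftm m G η‖ₑ ^ p with hf
  have h1 : ∫⁻ η, f η ≤ (∫⁻ η in ({0} : Set (Fin m → ℝ)), f η) +
      ((∑' k : ℕ, ∫⁻ η in Shm m (2 ^ k), f η) +
        ∑' k : ℕ, ∫⁻ η in Shm m ((2 ^ (k + 1))⁻¹), f η) := by
    rw [← setLIntegral_univ]
    refine (lintegral_mono_set hcov).trans ((lintegral_union_le _ _ _).trans ?_)
    refine add_le_add le_rfl ((lintegral_union_le _ _ _).trans ?_)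
    exact add_le_add (lintegral_iUnion_le _ _) (lintegral_iUnion_le _ _)
  have h2 : ∫⁻ η in ({0} : Set (Fin m → ℝ)), f η = 0 :=
    setLIntegral_measure_zero _ _ (measure_singleton _)
  have h3 : ∑' k : ℕ, ∫⁻ η in Shm m (2 ^ k), f η ≤
      ENNReal.ofReal (K1 * (D ^ (p - 2) * (A * V)) / (1 - q)) := by
    rw [← geom_sum (K1 * (D ^ (p - 2) * (A * V))) q (by positivity) hq0 hq1]
    refine ENNReal.tsum_le_tsum fun k => ?_
    refine (shellm_high hm1 hG hA hV hD p s2 hp2 hs2 (2 ^ k) (by positivity) hA0 hV0 hD0).trans ?_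
    refine ENNReal.ofReal_le_ofReal (le_of_eq ?_)
    congr 1
    rw [hq, ← Real.rpow_natCast 2 k, ← Real.rpow_mul (by norm_num), ← Real.rpow_natCast,
      ← Real.rpow_mul (by norm_num)]
    congr 1; ring
  have h4 : ∑' k : ℕ, ∫⁻ η in Shm m ((2 ^ (k + 1))⁻¹), f η ≤
      ENNReal.ofReal (K2 * (D ^ (p - 2) * V ^ 2) / (1 - q')) := by
    rw [← geom_sum (K2 * (D ^ (p - 2) * V ^ 2)) q' (by positivity) hq0' hq1']
    refine ENNReal.tsum_le_tsum fun k => ?_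
    refine (shellm_low hm1 hG hV hD p s2 hp2 hs2 ((2 ^ (k + 1))⁻¹) (by positivity) hV0
      hD0).trans ?_
    refine ENNReal.ofReal_le_ofReal (mul_le_mul_of_nonneg_left ?_ (by positivity))
    have h5 : ((2 : ℝ) ^ (k + 1))⁻¹ ^ ((m : ℝ) / 2 * (p - 2) - 2 + m) = q' ^ (k + 1) := by
      rw [hq', Real.inv_rpow (by positivity), ← Real.rpow_natCast 2 (k + 1),
        ← Real.rpow_mul (by norm_num), ← Real.rpow_natCast, ← Real.rpow_mul (by norm_num),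
        ← Real.rpow_neg (by norm_num)]
      congr 1; ring
    rw [h5]
    exact pow_le_pow_of_le_one hq0' hq1'.le (Nat.le_succ k)
  refine h1.trans ?_
  rw [h2, zero_add]
  refine (add_le_add h3 h4).trans ?_
  have hq2 : 0 < 1 - q := by linarith
  have hq2' : 0 < 1 - q' := by linarith
  rw [← ENNReal.ofReal_add (by positivity) (by positivity)]
  refine ENNReal.ofReal_le_ofReal ?_
  have h6 : 0 ≤ D ^ (p - 2) * (A * V) := by positivity
  have h7 : 0 ≤ D ^ (p - 2) * V ^ 2 := by positivity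
  have h8 : 0 ≤ K1 / (1 - q) := by positivity
  have h9 : 0 ≤ K2 / (1 - q') := by positivity
  have e1 : K1 * (D ^ (p - 2) * (A * V)) / (1 - q) = K1 / (1 - q) * (D ^ (p - 2) * (A * V)) := by
    ring
  have e2 : K2 * (D ^ (p - 2) * V ^ 2) / (1 - q') = K2 / (1 - q') * (D ^ (p - 2) * V ^ 2) := by
    ring
  have e3 : D ^ (p - 2) * V * (A + V) = D ^ (p - 2) * (A * V) + D ^ (p - 2) * V ^ 2 := by ring
  rw [e1, e2, e3]
  nlinarith [mul_nonneg h8 h7, mul_nonneg h9 h6]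

end Pool.Agent.R77.LSB
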