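import Pool.Agent.R77.LSB.Gen
import Pool.Agent.R77.LSB.SliceM
set_option autoImplicit false

/-! # The weight `|η|^m (1+|η|)^(-s)`, and the slices of a function (helper77) -/

open MeasureTheory Set Filter
open scoped ENNReal FourierTransform RealInnerProductSpace Topology

namespace Pool.Agent.R77.LSB

open Pool.Agent.TH280.LS Pool.Agent.TH280.LS.K5

/-- the weight `|η|^m (1+|η|)^(-s2)` -/
theorem tw_nr (hE4R : S_E4R) (hONEK : S_ONEK) (hT2K : S_T2K) (hT4K : S_ONEK → S_T4K)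
    (hTPK : S_TPK) (m : ℕ) (hm0 : 0 < m) (s1 s2 p : ℝ) (hs1 : 0 < s1) (hs20 : 0 < s2)
    (hp : 2 ≤ p) (hp4 : p ≤ 4) :
    TW m (fun η => (nr η ^ m) ^ (p - 2) * kp m s2 η ^ p) (s1 + s2) p := by
  have hmeas : Measurable (fun η : Fin m → ℝ => nr η ^ m) := by
    unfold nr
    fun_prop
  have hnn : ∀ η : Fin m → ℝ, 0 ≤ nr η ^ m := fun η => by unfold nr; positivity
  have hne : ∀ᵐ η : Fin m → ℝ, nr η ^ m ≠ 0 := by
    have : Nonempty (Fin m) := ⟨⟨0, hm0⟩⟩
    have h0 : ∀ᵐ η : Fin m → ℝ, η ≠ 0 := by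
      rw [ae_iff]
      have h1 : {a : Fin m → ℝ | ¬ a ≠ 0} = {0} := by ext; simp
      rw [h1]
      exact measure_singleton 0
    filter_upwards [h0] with η hη hcon
    have h1 : nr η = 0 := by
      by_contra hc
      exact (pow_ne_zero m hc) hcon
    unfold nr at h1
    rw [Real.sqrt_eq_zero (Finset.sum_nonneg fun i _ => sq_nonneg _),
      Finset.sum_eq_zero_iff_of_nonneg (fun i _ => sq_nonneg _)] at h1
    exact hη (funext fun i => by simpa using h1 i (Finset.mem_univ i))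
  have hkm : Measurable (kp m s2) := by
    unfold kp nr
    exact Measurable.pow_const (by fun_prop) _
  have hk0 : ∀ η, 0 < kp m s2 η := by
    intro η
    unfold kp
    have : 0 ≤ nr η := Real.sqrt_nonneg _
    positivity
  have hk1 : ∀ η, kp m s2 η ≤ 1 := by
    intro η
    unfold kp
    have : 0 ≤ nr η := Real.sqrt_nonneg _
    exact Real.rpow_le_one_of_one_le_of_nonpos (by linarith) (by linarith)
  exact hTPK m _ _ (s1 + s2) p hm0 hmeas hnn hne hkm hk0 hk1 (by linarith) hp hp4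
    (hT2K m s1 s2 hm0 hs1 hs20.le)
    (hT4K hONEK m (fun η => nr η ^ m) s1 s2 hm0 hmeas hnn (hE4R m hm0) hs1 hs20.le)

/-- the slice `y ↦ f(∑ y_i v_i + x v_m)` -/
noncomputable def slc {m : ℕ} (v : OrthonormalBasis (Fin (m + 1)) ℝ (EuclideanSpace ℝ (Fin (m + 1))))
    (f : EuclideanSpace ℝ (Fin (m + 1)) → ℂ) (x : ℝ) : (Fin m → ℝ) → ℂ :=
  fun y => f (∑ i, y i • v i.castSucc + x • v (Fin.last m))

theorem slf_of (m : ℕ) (W : (Fin m → ℝ) → ℝ) (p : ℝ)
    (v : OrthonormalBasis (Fin (m + 1)) ℝ (EuclideanSpace ℝ (Fin (m + 1))))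
    (f : EuclideanSpace ℝ (Fin (m + 1)) → ℂ) (Φ : ℝ → ℝ≥0∞)
    (h : ∀ x, Integrable (slc v f x) →
      ∫⁻ η : Fin m → ℝ, ENNReal.ofReal (W η) * ‖ftm m (slc v f x) η‖ₑ ^ p ≤ Φ x) :
    SlF m W p f Φ := by
  refine ⟨v.repr, fun w => f (v.repr.symm w), fun z => by simp, ?_⟩
  intro x hi
  have heq : ∀ y : Fin m → ℝ, f (v.repr.symm ((Zc m).symm (x, y))) = slc v f x y := by
    intro y
    unfold slc
    rw [← v.sum_repr_symm, Fin.sum_univ_castSucc]
    have h4 : Zc m ((Zc m).symm (x, y)) = (x, y) := MeasurableEquiv.apply_symm_apply _ _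
    rw [Zc_apply] at h4
    have h5 : ((Zc m).symm (x, y)) (Fin.last m) = x := congrArg Prod.fst h4
    have h6 : ∀ i : Fin m, ((Zc m).symm (x, y)) i.castSucc = y i :=
      fun i => congrFun (congrArg Prod.snd h4) i
    rw [h5]
    simp only [h6]
  simp only [heq] at hi ⊢
  exact h x hi


/-- Tonelli's theorem for the slices -/
theorem lint_slc {m : ℕ} (v : OrthonormalBasis (Fin (m + 1)) ℝ (EuclideanSpace ℝ (Fin (m + 1))))
    (f : EuclideanSpace ℝ (Fin (m + 1)) → ℂ) (hf : Integrable f) (p : ℝ) :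
    ∫⁻ x : ℝ, ∫⁻ y : Fin m → ℝ, ‖slc v f x y‖ₑ ^ p = ∫⁻ z, ‖f z‖ₑ ^ p := by
  set f' : EuclideanSpace ℝ (Fin (m + 1)) → ℂ := fun w => f (v.repr.symm w) with hf'
  have hf'i : Integrable f' := v.repr.symm.measurePreserving.integrable_comp_of_integrable hf
  have hff : f = fun z => f' (v.repr z) := by
    funext z
    simp [hf']
  set g : ℝ × (Fin m → ℝ) → ℂ := fun q => f' ((Zc m).symm q) with hg
  have hgi : Integrable g := ((Zc_mp m).symm _).integrable_comp_of_integrable hf'i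
  have hgf : (fun z => g (Zc m z)) = f' := by
    funext z
    simp only [hg, MeasurableEquiv.symm_apply_apply]
  have heq : ∀ x y, slc v f x y = g (x, y) := by
    intro x y
    unfold slc
    simp only [hg, hf']
    rw [← v.sum_repr_symm, Fin.sum_univ_castSucc]
    have h4 : Zc m ((Zc m).symm (x, y)) = (x, y) := MeasurableEquiv.apply_symm_apply _ _
    rw [Zc_apply] at h4
    have h5 : ((Zc m).symm (x, y)) (Fin.last m) = x := congrArg Prod.fst h4
    have h6 : ∀ i : Fin m, ((Zc m).symm (x, y)) i.castSucc = y i :=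
      fun i => congrFun (congrArg Prod.snd h4) i
    rw [h5]
    simp only [h6]
  simp only [heq]
  have h7 : AEMeasurable (fun q : ℝ × (Fin m → ℝ) => ‖g q‖ₑ ^ p) :=
    hgi.1.aemeasurable.enorm.pow_const p
  have h8 : ∫⁻ z, ‖f z‖ₑ ^ p = ∫⁻ z, ‖f' z‖ₑ ^ p := by
    rw [hff]
    exact lint_rot m (fun z => ‖f' z‖ₑ ^ p) v.repr
  rw [h8, ← hgf]
  rw [(Zc_mp m).lintegral_comp_emb (Zc m).measurableEmbedding (fun q => ‖g q‖ₑ ^ p),
    Measure.volume_eq_prod, lintegral_prod _ h7]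

end Pool.Agent.R77.LSB
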