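import Pool.Agent.R77.LSB.SliceB
import Pool.Agent.R77.LSB.BV
set_option autoImplicit false

/-! # The functional of Besov seminorm and Fourier decay, and its atomic norm (helper77) -/

open MeasureTheory Set Filter
open scoped ENNReal FourierTransform RealInnerProductSpace Topology

namespace Pool.Agent.R77.LSB

open Pool.Agent.TH280.LS Pool.Agent.TH280.LS.K5
open Pool.Agent.TH218.LS (nr_nonneg ftm_decay nr_smul)

variable {m : ℕ}

/-- the square of the Besov seminorm `B^(γ/2)_(2,∞)` -/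
noncomputable def Bes (γ : ℝ) (g : (Fin m → ℝ) → ℂ) : ℝ≥0∞ :=
  ⨆ h : Fin m → ℝ, (∫⁻ y : Fin m → ℝ, ‖g (y + h) - g y‖ₑ ^ 2) /
    ENNReal.ofReal (Real.sqrt (∑ i, h i ^ 2) ^ γ)

/-- Fourier decay of order `α` -/
noncomputable def DecA (α : ℝ) (g : (Fin m → ℝ) → ℂ) : ℝ≥0∞ :=
  ⨆ η : Fin m → ℝ, ENNReal.ofReal (Real.sqrt (∑ i, η i ^ 2) ^ α) *
    ‖∫ y : Fin m → ℝ, e (-(∑ i, y i * η i)) * g y‖ₑ

/-- the functional -/
noncomputable def NB (α γ p : ℝ) (g : (Fin m → ℝ) → ℂ) : ℝ≥0∞ :=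
  DecA α g ^ (p - 2) * (Bes γ g + DecA α g ^ 2)

lemma nr_posB {h : Fin m → ℝ} (h0 : h ≠ 0) : 0 < Real.sqrt (∑ i, h i ^ 2) := by
  apply Real.sqrt_pos.2
  obtain ⟨i, hi⟩ := Function.ne_iff.1 h0
  have hi' : h i ≠ 0 := hi
  exact Finset.sum_pos' (fun i _ => sq_nonneg _) ⟨i, Finset.mem_univ i, by positivity⟩

lemma Bes_diff (γ : ℝ) (g : (Fin m → ℝ) → ℂ) (h : Fin m → ℝ) :
    ∫⁻ y : Fin m → ℝ, ‖g (y + h) - g y‖ₑ ^ 2 ≤
      Bes γ g * ENNReal.ofReal (Real.sqrt (∑ i, h i ^ 2) ^ γ) := by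
  by_cases h0 : h = 0
  · subst h0
    simp
  · have hpos : 0 < Real.sqrt (∑ i, h i ^ 2) ^ γ := Real.rpow_pos_of_pos (nr_posB h0) γ
    have h1 : (∫⁻ y : Fin m → ℝ, ‖g (y + h) - g y‖ₑ ^ 2) /
        ENNReal.ofReal (Real.sqrt (∑ i, h i ^ 2) ^ γ) ≤ Bes γ g :=
      le_iSup (fun h : Fin m → ℝ => (∫⁻ y : Fin m → ℝ, ‖g (y + h) - g y‖ₑ ^ 2) /
        ENNReal.ofReal (Real.sqrt (∑ i, h i ^ 2) ^ γ)) h
    rwa [ENNReal.div_le_iff (by simpa using hpos) ENNReal.ofReal_ne_top] at h1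

lemma Bes_real {γ : ℝ} {g : (Fin m → ℝ) → ℂ} (hv : Bes γ g ≠ ⊤) (h : Fin m → ℝ) :
    ∫⁻ y : Fin m → ℝ, ‖g (y + h) - g y‖ₑ ^ 2 ≤
      ENNReal.ofReal ((Bes γ g).toReal * nr h ^ γ) := by
  refine (Bes_diff γ g h).trans (le_of_eq ?_)
  rw [ENNReal.ofReal_mul ENNReal.toReal_nonneg, ENNReal.ofReal_toReal hv]
  rfl

lemma DecA_le (α : ℝ) (g : (Fin m → ℝ) → ℂ) (η : Fin m → ℝ) :
    ENNReal.ofReal (nr η ^ α) * ‖ftm m g η‖ₑ ≤ DecA α g :=
  le_iSup (fun η : Fin m → ℝ =>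
    ENNReal.ofReal (Real.sqrt (∑ i, η i ^ 2) ^ α) *
      ‖∫ y : Fin m → ℝ, e (-(∑ i, y i * η i)) * g y‖ₑ) η

theorem sliceB_enn (hm : 1 ≤ m) (p s2 α γ : ℝ) (hp2 : 2 < p) (hs2 : 0 ≤ s2) (hα : 0 ≤ α)
    (hαp : α * p < m * (p - 1)) (hs : ((m : ℝ) - α) * (p - 2) - γ < s2 * p) :
    ∃ C : ℝ, 0 < C ∧ ∀ (G : (Fin m → ℝ) → ℂ), Integrable G →
    ∫⁻ η : Fin m → ℝ, ENNReal.ofReal ((nr η ^ m) ^ (p - 2) * kp m s2 η ^ p) *
      ‖ftm m G η‖ₑ ^ p ≤ ENNReal.ofReal C * NB α γ p G := by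
  obtain ⟨C, hC, h⟩ := sliceB hm p s2 α γ hp2 hs2 hα hαp hs
  refine ⟨C, hC, fun G hG => ?_⟩
  have hC0 : ENNReal.ofReal C ≠ 0 := by simpa using hC
  have hp0 : 0 < p - 2 := by linarith
  by_cases hd0 : DecA α G = 0
  · refine le_trans (le_of_eq ?_) bot_le
    have hz : ∀ η, 0 < nr η → ftm m G η = 0 := by
      intro η h0
      have h1 := DecA_le α G η
      rw [hd0, nonpos_iff_eq_zero, mul_eq_zero] at h1
      rcases h1 with h1 | h1
      · exfalso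
        rw [ENNReal.ofReal_eq_zero] at h1
        have : 0 < nr η ^ α := by positivity
        linarith
      · simpa using h1
    refine (lintegral_congr fun η => ?_).trans lintegral_zero
    rcases (nr_nonneg η).eq_or_lt with h0 | h0
    · rw [← h0, zero_pow (by omega), Real.zero_rpow (by linarith), zero_mul,
        ENNReal.ofReal_zero, zero_mul]
    · rw [hz η h0, enorm_zero, ENNReal.zero_rpow_of_pos (by linarith), mul_zero]
  have hdp : DecA α G ^ (p - 2) ≠ 0 := by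
    rw [Ne, ENNReal.rpow_eq_zero_iff_of_pos hp0]
    exact hd0
  have hs0 : Bes γ G + DecA α G ^ 2 ≠ 0 := by
    intro hcon
    exact hd0 (pow_eq_zero_iff (two_ne_zero)|>.1 (add_eq_zero.1 hcon).2)
  by_cases hd : DecA α G = ⊤
  · have : NB α γ p G = ⊤ := by
      unfold NB
      rw [hd, ENNReal.top_rpow_of_pos hp0]
      rw [hd] at hs0
      exact ENNReal.top_mul hs0
    rw [this, ENNReal.mul_top hC0]
    exact le_top
  by_cases hv : Bes γ G = ⊤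
  · have : NB α γ p G = ⊤ := by
      unfold NB
      rw [hv, top_add, ENNReal.mul_top hdp]
    rw [this, ENNReal.mul_top hC0]
    exact le_top
  have hD1 : ∀ η : Fin m → ℝ, nr η ^ α * ‖ftm m G η‖ ≤ (DecA α G).toReal := by
    intro η
    have h1 := DecA_le α G η
    have h2 : 0 ≤ nr η ^ α := Real.rpow_nonneg (nr_nonneg η) _
    rw [← ofReal_norm, ← ENNReal.ofReal_mul h2] at h1
    exact (ENNReal.ofReal_le_iff_le_toReal hd).1 h1
  refine (h G _ _ hG (Bes_real hv) hD1 ENNReal.toReal_nonneg ENNReal.toReal_nonneg).trans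
    (le_of_eq ?_)
  have hdr : 0 ≤ (DecA α G).toReal := ENNReal.toReal_nonneg
  have hvr : 0 ≤ (Bes γ G).toReal := ENNReal.toReal_nonneg
  unfold NB
  rw [ENNReal.ofReal_mul hC.le, ENNReal.ofReal_mul (by positivity),
    ENNReal.ofReal_add hvr (by positivity), ENNReal.ofReal_pow hdr,
    ← ENNReal.ofReal_rpow_of_nonneg hdr hp0.le, ENNReal.ofReal_toReal hd,
    ENNReal.ofReal_toReal hv]

/-! ### Minkowski's inequality -/

lemma mink_fin {X : Type*} [MeasurableSpace X] {μ : Measure X} {p : ℝ} (hp : 1 ≤ p)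
    (F : ℕ → X → ℝ≥0∞) (hF : ∀ j, AEMeasurable (F j) μ) (n : ℕ) :
    (∫⁻ x, (∑ j ∈ Finset.range n, F j x) ^ p ∂μ) ^ (1 / p) ≤
      ∑ j ∈ Finset.range n, (∫⁻ x, F j x ^ p ∂μ) ^ (1 / p) := by
  induction n with
  | zero =>
    simp only [Finset.range_zero, Finset.sum_empty]
    rw [ENNReal.zero_rpow_of_pos (by linarith), lintegral_zero,
      ENNReal.zero_rpow_of_pos (by positivity)]
  | succ n ih =>
    simp only [Finset.sum_range_succ]
    refine le_trans (ENNReal.lintegral_Lp_add_le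
      (f := fun x => ∑ j ∈ Finset.range n, F j x) (g := F n)
      (Finset.aemeasurable_fun_sum _ fun j _ => hF j) (hF n) hp) ?_
    gcongr

lemma mink {X : Type*} [MeasurableSpace X] {μ : Measure X} {p : ℝ} (hp : 1 ≤ p)
    (F : ℕ → X → ℝ≥0∞) (hF : ∀ j, AEMeasurable (F j) μ) :
    ∫⁻ x, (∑' j, F j x) ^ p ∂μ ≤ (∑' j, (∫⁻ x, F j x ^ p ∂μ) ^ (1 / p)) ^ p := by
  have hp0 : 0 < p := by linarith
  have h1 : ∀ x, (∑' j, F j x) ^ p = ⨆ n : ℕ, (∑ j ∈ Finset.range n, F j x) ^ p := by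
    intro x
    rw [ENNReal.tsum_eq_iSup_nat]
    exact (ENNReal.orderIsoRpow p hp0).map_iSup _
  simp only [h1]
  rw [lintegral_iSup' (fun n => (Finset.aemeasurable_fun_sum _ fun j _ => hF j).pow_const p)
    (Eventually.of_forall fun x n k hnk => ENNReal.rpow_le_rpow
      (Finset.sum_le_sum_of_subset (Finset.range_mono hnk)) hp0.le)]
  refine iSup_le fun n => ?_
  have h2 := mink_fin hp F hF n
  calc ∫⁻ x, (∑ j ∈ Finset.range n, F j x) ^ p ∂μ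
      = ((∫⁻ x, (∑ j ∈ Finset.range n, F j x) ^ p ∂μ) ^ (1 / p)) ^ p := by
        rw [← ENNReal.rpow_mul, one_div_mul_cancel hp0.ne', ENNReal.rpow_one]
    _ ≤ (∑ j ∈ Finset.range n, (∫⁻ x, F j x ^ p ∂μ) ^ (1 / p)) ^ p := by gcongr
    _ ≤ _ := by
        gcongr
        exact ENNReal.sum_le_tsum _

lemma ftm_cont {g : (Fin m → ℝ) → ℂ} (hg : Integrable g) : Continuous (ftm m g) := by
  unfold ftm
  refine continuous_of_dominated (bound := fun y => ‖g y‖) ?_ ?_ hg.norm ?_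
  · intro η
    refine AEStronglyMeasurable.mul ?_ hg.1
    exact (measurable_e.comp (by fun_prop)).aestronglyMeasurable
  · intro η
    refine Eventually.of_forall fun y => ?_
    rw [norm_mul, norm_e, one_mul]
  · refine Eventually.of_forall fun y => ?_
    refine Continuous.mul ?_ continuous_const
    unfold e
    fun_prop

lemma ftm_tsum {g : (Fin m → ℝ) → ℂ} {a : ℕ → (Fin m → ℝ) → ℂ} (ha : ∀ j, Integrable (a j))
    (hs : ∑' j, ∫⁻ y, ‖a j y‖ₑ ≠ ⊤) (hg : ∀ᵐ y, g y = ∑' j, a j y) (η : Fin m → ℝ) :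
    ‖ftm m g η‖ₑ ≤ ∑' j, ‖ftm m (a j) η‖ₑ := by
  have h1 : ftm m g η = ∑' j, ftm m (a j) η := by
    unfold ftm
    rw [← integral_tsum]
    · refine integral_congr_ae ?_
      filter_upwards [hg] with y hy
      rw [hy, tsum_mul_left]
    · intro j
      refine AEStronglyMeasurable.mul ?_ (ha j).1
      exact (measurable_e.comp (by fun_prop)).aestronglyMeasurable
    · convert hs using 4 with j
      funext y
      rw [enorm_mul, ← ofReal_norm (e _), norm_e, ENNReal.ofReal_one, one_mul]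
  rw [h1]
  exact enorm_tsum_le_tsum_enorm

/-- the atomic norm -/
noncomputable def Atm (α γ p : ℝ) (g : (Fin m → ℝ) → ℂ) : ℝ≥0∞ :=
  ⨅ (a : ℕ → (Fin m → ℝ) → ℂ) (_ : (∀ j, Integrable (a j)) ∧ ∑' j, ∫⁻ y, ‖a j y‖ₑ ≠ ⊤ ∧
    ∀ᵐ y, g y = ∑' j, a j y), ∑' j, NB α γ p (a j) ^ (1 / p)

theorem atm_enn (hm : 1 ≤ m) (p s2 α γ : ℝ) (hp2 : 2 < p) (hs2 : 0 ≤ s2) (hα : 0 ≤ α)
    (hαp : α * p < m * (p - 1)) (hs : ((m : ℝ) - α) * (p - 2) - γ < s2 * p) :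
    ∃ C : ℝ, 0 < C ∧ ∀ (G : (Fin m → ℝ) → ℂ), Integrable G →
    ∫⁻ η : Fin m → ℝ, ENNReal.ofReal ((nr η ^ m) ^ (p - 2) * kp m s2 η ^ p) *
      ‖ftm m G η‖ₑ ^ p ≤ ENNReal.ofReal C * Atm α γ p G ^ p := by
  obtain ⟨C, hC, h⟩ := sliceB_enn hm p s2 α γ hp2 hs2 hα hαp hs
  refine ⟨C, hC, fun G hG => ?_⟩
  have hp0 : 0 < p := by linarith
  have hC0 : ENNReal.ofReal C ≠ 0 := by simpa using hC
  set w : (Fin m → ℝ) → ℝ≥0∞ := fun η => ENNReal.ofReal ((nr η ^ m) ^ (p - 2) * kp m s2 η ^ p)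
    with hw
  have hwm : Measurable w := by
    have h1 : Measurable (kp m s2) := by
      unfold kp nr
      exact Measurable.pow_const (by fun_prop) _
    have h2 : Measurable (fun η : Fin m → ℝ => nr η ^ m) := by
      unfold nr
      fun_prop
    exact ((h2.pow_const _).mul (h1.pow_const _)).ennreal_ofReal
  have hroot : ∀ x : ℝ≥0∞, (x ^ (1 / p)) ^ p = x := fun x => by
    rw [← ENNReal.rpow_mul, one_div_mul_cancel hp0.ne', ENNReal.rpow_one]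
  have hroot' : ∀ x : ℝ≥0∞, (x ^ p) ^ (1 / p) = x := fun x => by
    rw [← ENNReal.rpow_mul, mul_one_div_cancel hp0.ne', ENNReal.rpow_one]
  have key : ∀ a : ℕ → (Fin m → ℝ) → ℂ, ((∀ j, Integrable (a j)) ∧
      ∑' j, ∫⁻ y, ‖a j y‖ₑ ≠ ⊤ ∧ ∀ᵐ y, G y = ∑' j, a j y) →
      ∫⁻ η, w η * ‖ftm m G η‖ₑ ^ p ≤
        ENNReal.ofReal C * (∑' j, NB α γ p (a j) ^ (1 / p)) ^ p := by
    rintro a ⟨ha, hsum, hga⟩
    calc ∫⁻ η, w η * ‖ftm m G η‖ₑ ^ p
        ≤ ∫⁻ η, (∑' j, w η ^ (1 / p) * ‖ftm m (a j) η‖ₑ) ^ p := by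
          refine lintegral_mono fun η => ?_
          simp only
          rw [ENNReal.tsum_mul_left, ENNReal.mul_rpow_of_nonneg _ _ hp0.le, hroot]
          gcongr
          exact ftm_tsum ha hsum hga η
      _ ≤ (∑' j, (∫⁻ η, (w η ^ (1 / p) * ‖ftm m (a j) η‖ₑ) ^ p) ^ (1 / p)) ^ p := by
          refine mink (by linarith) _ fun j => ?_
          exact ((hwm.pow_const _).mul (ftm_cont (ha j)).measurable.enorm).aemeasurable
      _ ≤ (∑' j, (ENNReal.ofReal C * NB α γ p (a j)) ^ (1 / p)) ^ p := by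
          gcongr with j
          simp only [ENNReal.mul_rpow_of_nonneg _ _ hp0.le, hroot]
          exact h (a j) (ha j)
      _ = ENNReal.ofReal C * (∑' j, NB α γ p (a j) ^ (1 / p)) ^ p := by
          have h1p : 0 ≤ 1 / p := by positivity
          simp only [ENNReal.mul_rpow_of_nonneg _ _ h1p]
          rw [ENNReal.tsum_mul_left, ENNReal.mul_rpow_of_nonneg _ _ hp0.le, hroot]
  set X := ∫⁻ η, w η * ‖ftm m G η‖ₑ ^ p with hX
  have h3 : (X / ENNReal.ofReal C) ^ (1 / p) ≤ Atm α γ p G := by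
    unfold Atm
    refine le_iInf fun a => le_iInf fun ha => ?_
    rw [← hroot' (∑' j, NB α γ p (a j) ^ (1 / p))]
    gcongr
    exact ENNReal.div_le_of_le_mul' (key a ha)
  have h4 : X / ENNReal.ofReal C ≤ Atm α γ p G ^ p := by
    rw [← hroot (X / ENNReal.ofReal C)]
    gcongr
  rwa [ENNReal.div_le_iff hC0 ENNReal.ofReal_ne_top, mul_comm] at h4

/-- one datum -/
theorem atm_one (hE4R : S_E4R) (hONEK : S_ONEK) (hT2K : S_T2K) (hT4K : S_ONEK → S_T4K)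
    (hTPK : S_TPK) (hm : 1 ≤ m) (s p α γ : ℝ) (hs : 0 < s) (hα : 0 ≤ α)
    (hαp : α * p < m * (p - 1)) (hs3 : ((m : ℝ) - α) * (p - 2) - γ < s * p)
    (hp : 2 < p) (hp4 : p ≤ 4) :
    OneS m s p (fun f A => ∃ v, ∫⁻ x : ℝ, Atm α γ p (slc v f x) ^ p ≤ A) := by
  have hp0 : 0 < p := by linarith
  set σ0 : ℝ := max 0 ((((m : ℝ) - α) * (p - 2) - γ) / p) with hσ0
  have hs3' : (((m : ℝ) - α) * (p - 2) - γ) / p < s := by rwa [div_lt_iff₀ hp0]
  have hσs : σ0 < s := max_lt hs hs3'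
  have hσ1 : 0 ≤ σ0 := le_max_left _ _
  have hσ2 : (((m : ℝ) - α) * (p - 2) - γ) / p ≤ σ0 := le_max_right _ _
  obtain ⟨s1, s2, hs1, hs20, hs2b, hsum⟩ : ∃ s1 s2 : ℝ, 0 < s1 ∧ 0 < s2 ∧
      (((m : ℝ) - α) * (p - 2) - γ) / p < s2 ∧ s1 + s2 = s :=
    ⟨(s - σ0) / 2, (s + σ0) / 2, by linarith, by linarith, by linarith, by ring⟩
  rw [div_lt_iff₀ hp0] at hs2b
  have hTW := tw_nr hE4R hONEK hT2K hT4K hTPK m (by omega) s1 s2 p hs1 hs20 hp.le hp4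
  rw [hsum] at hTW
  obtain ⟨C2, hC2, hsl⟩ := atm_enn (m := m) hm p s2 α γ hp hs20.le hα hαp hs2b
  obtain ⟨C, hC, h⟩ := one_datum_fun m _ s p hs hTW
  refine ⟨C * C2, by positivity, ?_⟩
  rintro f A hf ⟨v, hv⟩ τ hτ hτ1
  have key := h f (fun x => ENNReal.ofReal C2 * Atm α γ p (slc v f x) ^ p) hf
    (slf_of m _ p v f _ (fun x hi => hsl _ hi)) τ hτ hτ1
  have hle : ENNReal.ofReal C * ∫⁻ x, ENNReal.ofReal C2 * Atm α γ p (slc v f x) ^ p ≤
      ENNReal.ofReal (C * C2) * A := by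
    rw [lintegral_const_mul' _ _ ENNReal.ofReal_ne_top, ENNReal.ofReal_mul hC.le, mul_assoc]
    exact mul_le_mul_right (mul_le_mul_right hv _) _
  exact ⟨key.1.trans hle, key.2.trans hle⟩

end Pool.Agent.R77.LSB
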