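import Pool.Agent.TH280.LS.K6
set_option autoImplicit false

/-! # General assembly, with an arbitrary functional of the slices (helper77)
(adapted from `Pool.Agent.TH280.LS.K5` and `K3`) -/

open MeasureTheory Set Filter
open scoped ENNReal FourierTransform RealInnerProductSpace Topology

namespace Pool.Agent.R77.LSB

open Pool.Agent.TH280.LS Pool.Agent.TH280.LS.K5

/-- the weighted slice integrals are at most `Φ x`, after an isometry -/
def SlF (m : ℕ) (W : (Fin m → ℝ) → ℝ) (p : ℝ) (f : EuclideanSpace ℝ (Fin (m + 1)) → ℂ)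
    (Φ : ℝ → ℝ≥0∞) : Prop :=
  ∃ (L : EuclideanSpace ℝ (Fin (m + 1)) ≃ₗᵢ[ℝ] EuclideanSpace ℝ (Fin (m + 1)))
    (f' : EuclideanSpace ℝ (Fin (m + 1)) → ℂ), (∀ z, f z = f' (L z)) ∧
    ∀ x : ℝ, Integrable (fun y : Fin m → ℝ => f' ((Zc m).symm (x, y))) →
      ∫⁻ η : Fin m → ℝ, ENNReal.ofReal (W η) *
        ‖ftm m (fun y => f' ((Zc m).symm (x, y))) η‖ₑ ^ p ≤ Φ x

/-- the estimate for one datum -/
theorem one_datum_fun (m : ℕ) (W : (Fin m → ℝ) → ℝ) (s p : ℝ) (hs : 0 < s)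
    (hTP : TW m W s p) : ∃ C : ℝ, 0 < C ∧
    ∀ (f : EuclideanSpace ℝ (Fin (m + 1)) → ℂ) (Φ : ℝ → ℝ≥0∞), Integrable f → SlF m W p f Φ →
    ∀ τ : ℝ, 0 < τ → τ ≤ 1 →
    (∫⁻ t in Icc (1 : ℝ) 2, ∫⁻ z, ‖RM m (mc s τ t) f z‖ₑ ^ p ≤
      ENNReal.ofReal C * ∫⁻ x, Φ x) ∧
    (∫⁻ t in Icc (1 : ℝ) 2, ∫⁻ z, ‖RM m (ms s τ t) f z‖ₑ ^ p ≤
      ENNReal.ofReal C * ∫⁻ x, Φ x) := by
  obtain ⟨C1, hC1, h1⟩ := hTP
  refine ⟨C1, hC1, ?_⟩
  rintro f Φ hf ⟨L, f', hff0, hsl⟩ τ hτ hτ1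
  have hff : f = fun z => f' (L z) := funext hff0
  have hf'i : Integrable f' := by
    have h3 : f' = fun z => f (L.symm z) := by
      funext z
      rw [hff]
      simp only [LinearIsometryEquiv.apply_symm_apply]
    rw [h3]
    exact L.symm.measurePreserving.integrable_comp_of_integrable hf
  -- coordinates
  set g : ℝ × (Fin m → ℝ) → ℂ := fun q => f' ((Zc m).symm q) with hg
  have hgi : Integrable g := ((Zc_mp m).symm _).integrable_comp_of_integrable hf'i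
  have hgf : (fun z => g (Zc m z)) = f' := by
    funext z
    simp only [hg, MeasurableEquiv.symm_apply_apply]
  -- measurable modification
  obtain ⟨g0, hg0m, hg0e⟩ : ∃ g0 : ℝ × (Fin m → ℝ) → ℂ, Measurable g0 ∧ g =ᵐ[volume] g0 :=
    ⟨hgi.1.mk g, hgi.1.stronglyMeasurable_mk.measurable, hgi.1.ae_eq_mk⟩
  have hg0i : Integrable g0 := hgi.congr hg0e
  have hcong : (fun z => g (Zc m z)) =ᵐ[volume] fun z => g0 (Zc m z) :=
    (Zc_mp m).quasiMeasurePreserving.ae_eq_comp hg0e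
  have hRM : ∀ M : ℝ → ℝ, ∀ z, RM m M f z = RM m M (fun z => g0 (Zc m z)) (L z) := by
    intro M z
    rw [← RM_congr m M hcong, hgf, hff, RM_rot]
  have hR : ENNReal.ofReal C1 * ∫⁻ x : ℝ, ∫⁻ η : Fin m → ℝ,
      ENNReal.ofReal (W η) * ‖GG m g0 η x‖ₑ ^ p ≤ ENNReal.ofReal C1 * ∫⁻ x : ℝ, Φ x := by
    refine mul_le_mul_right ?_ _
    have h1 : ∀ᵐ x : ℝ, ∀ᵐ y : Fin m → ℝ, g (x, y) = g0 (x, y) := Measure.ae_ae_of_ae_prod hg0e
    have h2 : ∀ᵐ x : ℝ, Integrable (fun y : Fin m → ℝ => g (x, y)) := hgi.prod_right_ae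
    refine lintegral_mono_ae ?_
    filter_upwards [h1, h2] with x hx1 hx2
    have h3 : ∀ η, GG m g0 η x = ftm m (fun y => g (x, y)) η := by
      intro η
      unfold GG ftm
      refine integral_congr_ae ?_
      filter_upwards [hx1] with y hy
      rw [hy]
    simp only [h3]
    exact hsl x hx2
  have hLi : ∀ (M : ℝ → ℝ), ∫⁻ z, ‖RM m M f z‖ₑ ^ p =
      ∫⁻ z, ‖RM m M (fun z => g0 (Zc m z)) z‖ₑ ^ p := by
    intro M
    simp only [hRM M]
    exact lint_rot m (fun z => ‖RM m M (fun z => g0 (Zc m z)) z‖ₑ ^ p) L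
  have hTPg := h1 τ (GG m g0) hτ hτ1 (GG_adm m hg0i hg0m)
  constructor
  · refine (le_of_eq ?_).trans (hTPg.1.trans hR)
    refine setLIntegral_congr_fun measurableSet_Icc fun t ht => ?_
    rw [hLi, RM_lint m (mc s τ t) (measurable_mc s τ t) hτ (fun r _ => mc_le s τ t r hs) hg0i]
  · refine (le_of_eq ?_).trans (hTPg.2.trans hR)
    refine setLIntegral_congr_fun measurableSet_Icc fun t ht => ?_
    have ht2 : |t| ≤ 2 := by rw [abs_of_nonneg (by linarith [ht.1])]; exact ht.2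
    rw [hLi, RM_lint m (ms s τ t) (measurable_ms s τ t) hτ
      (fun r hr => ms_le s τ t r hs ht2 hr) hg0i]

/-- the estimate for one datum, `S f A` means that `A` is a bound for `f` -/
def OneS (m : ℕ) (s p : ℝ) (S : (EuclideanSpace ℝ (Fin (m + 1)) → ℂ) → ℝ≥0∞ → Prop) : Prop :=
  ∃ C : ℝ, 0 < C ∧
    ∀ (f : EuclideanSpace ℝ (Fin (m + 1)) → ℂ) (A : ℝ≥0∞), Integrable f → S f A →
    ∀ τ : ℝ, 0 < τ → τ ≤ 1 →
    (∫⁻ t in Icc (1 : ℝ) 2, ∫⁻ z, ‖RM m (mc s τ t) f z‖ₑ ^ p ≤ ENNReal.ofReal C * A) ∧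
    (∫⁻ t in Icc (1 : ℝ) 2, ∫⁻ z, ‖RM m (ms s τ t) f z‖ₑ ^ p ≤ ENNReal.ofReal C * A)

/-- the estimate for positive `τ` -/
theorem wv_posS (m : ℕ) (s p : ℝ) (S : (EuclideanSpace ℝ (Fin (m + 1)) → ℂ) → ℝ≥0∞ → Prop)
    (hone : OneS m s p S) (hs : 0 < s)
    (hp2 : 2 ≤ p) : ∃ C : ℝ, 0 < C ∧
    ∀ (f0 f1 : EuclideanSpace ℝ (Fin (m + 1)) → ℂ) (A0 A1 : ℝ≥0∞), Integrable f0 → Integrable f1 →
    S f0 A0 → S f1 A1 → ∀ τ : ℝ, 0 < τ → τ ≤ 1 →
    ∫⁻ t in Icc (1 : ℝ) 2, ∫⁻ z, ‖wv (m + 1) s τ f0 f1 t z‖ₑ ^ p ≤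
      ENNReal.ofReal C * (A0 + A1) := by
  obtain ⟨C, hC, h⟩ := hone
  refine ⟨2 ^ (p - 1) * C, by positivity, ?_⟩
  intro f0 f1 A0 A1 h0 h1 hc0 hc1 τ hτ hτ1
  have hmz : ∀ (M : ℝ → ℝ → ℝ), Measurable (Function.uncurry M) →
      ∀ f : EuclideanSpace ℝ (Fin (m + 1)) → ℂ, Integrable f →
      Measurable (fun q : ℝ × EuclideanSpace ℝ (Fin (m + 1)) => RM m (M q.1) f q.2) := by
    intro M hM f hf
    have h1 : StronglyMeasurable (fun q : (ℝ × EuclideanSpace ℝ (Fin (m + 1))) ×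
        EuclideanSpace ℝ (Fin (m + 1)) =>
        e (⟪q.1.2, q.2⟫ : ℝ) * (((M q.1.1 ‖q.2‖ : ℝ) : ℂ) * 𝓕 f q.2)) := by
      apply Measurable.stronglyMeasurable
      refine Measurable.mul (measurable_e.comp (by fun_prop)) (Measurable.mul
        (Complex.measurable_ofReal.comp ?_) ((cont_four hf).measurable.comp measurable_snd))
      exact hM.comp (f := fun q : (ℝ × EuclideanSpace ℝ (Fin (m + 1))) ×
        EuclideanSpace ℝ (Fin (m + 1)) => (q.1.1, ‖q.2‖)) (by fun_prop)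
    exact (h1.integral_prod_right (ν := volume)).measurable
  have hmc : Measurable (Function.uncurry (mc s τ)) := by
    unfold mc Function.uncurry
    refine Measurable.mul (by fun_prop) (Measurable.mul (by fun_prop) ?_)
    exact Measurable.pow_const (by fun_prop) _
  have hms : Measurable (Function.uncurry (ms s τ)) := by
    unfold ms Function.uncurry
    refine Measurable.mul (by fun_prop) (Measurable.mul (by fun_prop) ?_)
    exact Measurable.pow_const (by fun_prop) _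
  have m0 := hmz (mc s τ) hmc f0 h0
  have m1 := hmz (ms s τ) hms f1 h1
  have h2p : (2 : ℝ≥0∞) ^ (p - 1) = ENNReal.ofReal (2 ^ (p - 1)) := by
    rw [← ENNReal.ofReal_rpow_of_pos (by norm_num)]
    norm_num
  calc ∫⁻ t in Icc (1 : ℝ) 2, ∫⁻ z, ‖wv (m + 1) s τ f0 f1 t z‖ₑ ^ p
      ≤ ∫⁻ t in Icc (1 : ℝ) 2, ∫⁻ z, 2 ^ (p - 1) * (‖RM m (mc s τ t) f0 z‖ₑ ^ p +
          ‖RM m (ms s τ t) f1 z‖ₑ ^ p) := by
        refine setLIntegral_mono' measurableSet_Icc fun t ht => ?_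
        refine lintegral_mono fun z => ?_
        have ht2 : |t| ≤ 2 := by rw [abs_of_nonneg (by linarith [ht.1])]; exact ht.2
        rw [wv_eq m hs hτ ht2 h0 h1]
        exact (ENNReal.rpow_le_rpow (enorm_add_le _ _) (by linarith)).trans
          (ENNReal.rpow_add_le_mul_rpow_add_rpow _ _ (by linarith))
    _ = 2 ^ (p - 1) * ((∫⁻ t in Icc (1 : ℝ) 2, ∫⁻ z, ‖RM m (mc s τ t) f0 z‖ₑ ^ p) +
          ∫⁻ t in Icc (1 : ℝ) 2, ∫⁻ z, ‖RM m (ms s τ t) f1 z‖ₑ ^ p) := by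
        rw [← lintegral_add_left, ← lintegral_const_mul']
        · refine lintegral_congr fun t => ?_
          rw [← lintegral_add_left, ← lintegral_const_mul']
          · rw [h2p]; exact ENNReal.ofReal_ne_top
          · exact ((m0.comp measurable_prodMk_left).enorm.pow_const p)
        · rw [h2p]; exact ENNReal.ofReal_ne_top
        · exact Measurable.lintegral_prod_right' (m0.enorm.pow_const p)
    _ ≤ 2 ^ (p - 1) * ((ENNReal.ofReal C * A0) + ENNReal.ofReal C * A1) := by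
        refine mul_le_mul_right ?_ _
        exact add_le_add (h f0 A0 h0 hc0 τ hτ hτ1).1 (h f1 A1 h1 hc1 τ hτ hτ1).2
    _ = _ := by
        rw [h2p, ENNReal.ofReal_mul (by positivity), ← mul_add, mul_assoc]

/-- the estimate for all `τ` -/
theorem wv_allS (m : ℕ) (s p : ℝ) (S : (EuclideanSpace ℝ (Fin (m + 1)) → ℂ) → ℝ≥0∞ → Prop)
    (hone : OneS m s p S) (hs : 0 < s)
    (hp2 : 2 ≤ p) : ∃ C : ℝ, 0 < C ∧
    ∀ (f0 f1 : EuclideanSpace ℝ (Fin (m + 1)) → ℂ) (A0 A1 : ℝ≥0∞), Integrable f0 → Integrable f1 →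
    S f0 A0 → S f1 A1 → ∀ τ : ℝ, 0 ≤ τ → τ ≤ 1 →
    (0 < τ ∨
      (Integrable (fun ζ => (((1 + 4 * Real.pi ^ 2 * ‖ζ‖ ^ 2) ^ (-(s / 2)) : ℝ) : ℂ) * 𝓕 f0 ζ) ∧
       Integrable (fun ζ => (((1 + 4 * Real.pi ^ 2 * ‖ζ‖ ^ 2) ^ (-(s / 2)) : ℝ) : ℂ) *
        𝓕 f1 ζ))) →
    ∫⁻ t in Icc (1 : ℝ) 2, ∫⁻ z, ‖wv (m + 1) s τ f0 f1 t z‖ₑ ^ p ≤
      ENNReal.ofReal C * (A0 + A1) := by
  obtain ⟨C, hC, h⟩ := wv_posS m s p S hone hs hp2
  refine ⟨C, hC, ?_⟩
  intro f0 f1 A0 A1 h0 h1 hc0 hc1 τ hτ hτ1 hcase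
  rcases hτ.eq_or_lt with hτ0 | hτ0
  swap
  · exact h f0 f1 A0 A1 h0 h1 hc0 hc1 τ hτ0 hτ1
  subst hτ0
  rcases hcase with hcase | ⟨hi0, hi1⟩
  · exact absurd hcase (lt_irrefl _)
  set R := ENNReal.ofReal C * (A0 + A1) with hR
  set u : ℕ → ℝ := fun n => 1 / ((n : ℝ) + 1) with hu
  have hu0 : ∀ n, 0 < u n := fun n => by simp only [hu]; positivity
  have hu1 : ∀ n, u n ≤ 1 := by
    intro n
    simp only [hu]
    rw [div_le_one (by positivity)]
    have : (0 : ℝ) ≤ n := Nat.cast_nonneg n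
    linarith
  have hul : Tendsto u atTop (𝓝 0) := tendsto_one_div_add_atTop_nhds_zero_nat
  -- measurability
  have hmeas : ∀ n, Measurable (fun q : ℝ × EuclideanSpace ℝ (Fin (m + 1)) =>
      wv (m + 1) s (u n) f0 f1 q.1 q.2) := by
    intro n
    have h2 : StronglyMeasurable (fun q : (ℝ × EuclideanSpace ℝ (Fin (m + 1))) ×
        EuclideanSpace ℝ (Fin (m + 1)) =>
        e (⟪q.1.2, q.2⟫ : ℝ) * (((Real.exp (-(u n * ‖q.2‖ ^ 2)) : ℝ) : ℂ) *
        (((Real.cos (2 * Real.pi * (q.1.1 * ‖q.2‖)) *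
        (1 + 4 * Real.pi ^ 2 * ‖q.2‖ ^ 2) ^ (-(s / 2)) : ℝ) : ℂ) * 𝓕 f0 q.2 +
     ((Real.sin (2 * Real.pi * (q.1.1 * ‖q.2‖)) / (2 * Real.pi * ‖q.2‖) *
        (1 + 4 * Real.pi ^ 2 * ‖q.2‖ ^ 2) ^ ((1 - s) / 2) : ℝ) : ℂ) * 𝓕 f1 q.2))) := by
      apply Measurable.stronglyMeasurable
      have e0 := (cont_four h0).measurable
      have e1 := (cont_four h1).measurable
      refine Measurable.mul (measurable_e.comp (by fun_prop)) (Measurable.mul (by fun_prop)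
        (Measurable.add (Measurable.mul (Complex.measurable_ofReal.comp (Measurable.mul
          (by fun_prop) (Measurable.pow_const (by fun_prop) _))) (e0.comp measurable_snd))
         (Measurable.mul (Complex.measurable_ofReal.comp (Measurable.mul
          (by fun_prop) (Measurable.pow_const (by fun_prop) _))) (e1.comp measurable_snd))))
    exact (h2.integral_prod_right (ν := volume)).measurable
  -- convergence
  have hconv : ∀ t : ℝ, |t| ≤ 2 → ∀ z, Tendsto (fun n => wv (m + 1) s (u n) f0 f1 t z) atTop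
      (𝓝 (wv (m + 1) s 0 f0 f1 t z)) := by
    intro t ht z
    unfold wv
    refine tendsto_integral_of_dominated_convergence (fun ζ =>
      ‖(((1 + 4 * Real.pi ^ 2 * ‖ζ‖ ^ 2) ^ (-(s / 2)) : ℝ) : ℂ) * 𝓕 f0 ζ‖ +
      3 * ‖(((1 + 4 * Real.pi ^ 2 * ‖ζ‖ ^ 2) ^ (-(s / 2)) : ℝ) : ℂ) * 𝓕 f1 ζ‖) ?_ ?_ ?_ ?_
    · intro n
      have e0 := (cont_four h0).measurable
      have e1 := (cont_four h1).measurable
      refine Measurable.aestronglyMeasurable ?_
      refine Measurable.mul (measurable_e.comp (by fun_prop)) (Measurable.mul (by fun_prop)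
        (Measurable.add (Measurable.mul (Complex.measurable_ofReal.comp (Measurable.mul
          (by fun_prop) (Measurable.pow_const (by fun_prop) _))) e0)
         (Measurable.mul (Complex.measurable_ofReal.comp (Measurable.mul
          (by fun_prop) (Measurable.pow_const (by fun_prop) _))) e1)))
    · exact hi0.norm.add (hi1.norm.const_mul 3)
    · intro n
      exact Eventually.of_forall fun ζ => wv_dom m (hu0 n).le ht f0 f1 z ζ
    · refine Eventually.of_forall fun ζ => ?_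
      refine Tendsto.const_mul _ (Tendsto.mul_const _ ?_)
      refine (Complex.continuous_ofReal.tendsto _).comp ((Real.continuous_exp.tendsto _).comp ?_)
      exact (hul.mul_const _).neg
  calc ∫⁻ t in Icc (1 : ℝ) 2, ∫⁻ z, ‖wv (m + 1) s 0 f0 f1 t z‖ₑ ^ p
      ≤ ∫⁻ t in Icc (1 : ℝ) 2, liminf (fun n => ∫⁻ z, ‖wv (m + 1) s (u n) f0 f1 t z‖ₑ ^ p)
          atTop := by
        refine setLIntegral_mono' measurableSet_Icc fun t ht => ?_
        have ht2 : |t| ≤ 2 := by rw [abs_of_nonneg (by linarith [ht.1])]; exact ht.2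
        calc ∫⁻ z, ‖wv (m + 1) s 0 f0 f1 t z‖ₑ ^ p
            = ∫⁻ z, liminf (fun n => ‖wv (m + 1) s (u n) f0 f1 t z‖ₑ ^ p) atTop := by
              refine lintegral_congr fun z => ?_
              symm
              apply Tendsto.liminf_eq
              exact (ENNReal.continuous_rpow_const.tendsto _).comp
                ((continuous_enorm.tendsto _).comp (hconv t ht2 z))
          _ ≤ _ := lintegral_liminf_le fun n =>
              ((hmeas n).comp measurable_prodMk_left).enorm.pow_const p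
    _ ≤ liminf (fun n => ∫⁻ t in Icc (1 : ℝ) 2, ∫⁻ z, ‖wv (m + 1) s (u n) f0 f1 t z‖ₑ ^ p)
          atTop := lintegral_liminf_le fun n =>
              Measurable.lintegral_prod_right' ((hmeas n).enorm.pow_const p)
    _ ≤ R := by
        refine (liminf_le_liminf (v := fun _ => R) (Eventually.of_forall fun n => ?_)).trans
          (le_of_eq (liminf_const R))
        exact h f0 f1 A0 A1 h0 h1 hc0 hc1 (u n) (hu0 n) (hu1 n)

end Pool.Agent.R77.LSB
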