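import Pool.Agent.R77.LSB.EnnB
set_option autoImplicit false

/-! # Sums of scaled and translated bumps (helper77) -/

open MeasureTheory Set Filter
open scoped ENNReal Topology

namespace Pool.Agent.R77.LSB

open Pool.Agent.TH280.LS
open Pool.Agent.TH218.LS (nr_nonneg nr_smul)

variable {m : ℕ}

lemma lint_scaleB {r : ℝ} (hr : 0 < r) (c : Fin m → ℝ) (F : (Fin m → ℝ) → ℝ≥0∞) :
    ∫⁻ y, F (r⁻¹ • (y - c)) = ENNReal.ofReal (r ^ m) * ∫⁻ y, F y := by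
  have hr' : r⁻¹ ≠ 0 := inv_ne_zero hr.ne'
  calc ∫⁻ y, F (r⁻¹ • (y - c)) = ∫⁻ y, F (r⁻¹ • y) :=
        lintegral_sub_right_eq_self (fun y : Fin m → ℝ => F (r⁻¹ • y)) c
    _ = ∫⁻ y, F y ∂(Measure.map (fun y : Fin m → ℝ => r⁻¹ • y) volume) :=
        ((Homeomorph.smulOfNeZero r⁻¹ hr' (α := Fin m → ℝ)).measurableEmbedding.lintegral_map
          F).symm
    _ = ENNReal.ofReal (r ^ m) * ∫⁻ y, F y := by
        have h1 := Measure.map_addHaar_smul (volume : Measure (Fin m → ℝ)) hr'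
        rw [h1, lintegral_smul_measure, smul_eq_mul]
        congr 2
        rw [Module.finrank_fin_fun]
        rw [inv_pow, inv_inv, abs_of_nonneg (by positivity)]

/-- the copy `b φ((y - c)/r)` -/
noncomputable def cpyB (b : ℂ) (c : Fin m → ℝ) (r : ℝ) (φ : (Fin m → ℝ) → ℂ) :
    (Fin m → ℝ) → ℂ := fun y => b * φ (r⁻¹ • (y - c))

lemma integrable_cpy (b : ℂ) (c : Fin m → ℝ) {r : ℝ} (hr : 0 < r) {φ : (Fin m → ℝ) → ℂ}
    (hφ : Integrable φ) : Integrable (cpyB b c r φ) := by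
  have h1 : Integrable (fun y : Fin m → ℝ => φ (r⁻¹ • y)) :=
    (integrable_comp_smul_iff volume φ (inv_ne_zero hr.ne')).2 hφ
  exact (h1.comp_sub_right c).const_mul b

lemma Bes_cpy (γ : ℝ) (b : ℂ) (c : Fin m → ℝ) {r : ℝ} (hr : 0 < r) (φ : (Fin m → ℝ) → ℂ) :
    Bes γ (cpyB b c r φ) ≤ ‖b‖ₑ ^ 2 * ENNReal.ofReal (r ^ ((m : ℝ) - γ)) * Bes γ φ := by
  refine iSup_le fun h => ?_
  refine ENNReal.div_le_of_le_mul ?_
  have h1 : ∀ y, ‖cpyB b c r φ (y + h) - cpyB b c r φ y‖ₑ ^ 2 =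
      ‖b‖ₑ ^ 2 * ‖φ (r⁻¹ • (y - c) + r⁻¹ • h) - φ (r⁻¹ • (y - c))‖ₑ ^ 2 := by
    intro y
    unfold cpyB
    rw [← mul_sub, enorm_mul, mul_pow]
    congr 5
    rw [← smul_add]
    congr 1
    abel
  simp only [h1]
  rw [lintegral_const_mul' _ _ (by finiteness),
    lint_scaleB hr c (fun u => ‖φ (u + r⁻¹ • h) - φ u‖ₑ ^ 2)]
  have h2 := Bes_diff γ φ (r⁻¹ • h)
  have h3 : Real.sqrt (∑ i, (r⁻¹ • h) i ^ 2) = r⁻¹ * Real.sqrt (∑ i, h i ^ 2) := by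
    have : ∑ i, (r⁻¹ • h) i ^ 2 = (r⁻¹) ^ 2 * ∑ i, h i ^ 2 := by
      rw [Finset.mul_sum]
      refine Finset.sum_congr rfl fun i _ => ?_
      simp only [Pi.smul_apply, smul_eq_mul]
      ring
    rw [this, Real.sqrt_mul (by positivity), Real.sqrt_sq (by positivity)]
  rw [h3, Real.mul_rpow (by positivity) (by positivity), ENNReal.ofReal_mul (by positivity)] at h2
  have h4 : r ^ ((m : ℝ) - γ) = r ^ m * r⁻¹ ^ γ := by
    rw [Real.rpow_sub hr, Real.rpow_natCast, Real.inv_rpow hr.le]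
    rfl
  calc ‖b‖ₑ ^ 2 * (ENNReal.ofReal (r ^ m) * ∫⁻ y, ‖φ (y + r⁻¹ • h) - φ y‖ₑ ^ 2)
      ≤ ‖b‖ₑ ^ 2 * (ENNReal.ofReal (r ^ m) * (Bes γ φ * (ENNReal.ofReal (r⁻¹ ^ γ) *
          ENNReal.ofReal (Real.sqrt (∑ i, h i ^ 2) ^ γ)))) := by gcongr
    _ = ‖b‖ₑ ^ 2 * ENNReal.ofReal (r ^ ((m : ℝ) - γ)) * Bes γ φ *
          ENNReal.ofReal (Real.sqrt (∑ i, h i ^ 2) ^ γ) := by
        rw [h4, ENNReal.ofReal_mul (by positivity)]
        ring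

lemma lp_cpyB (b : ℂ) (c : Fin m → ℝ) {r : ℝ} (hr : 0 < r) (φ : (Fin m → ℝ) → ℂ) {p : ℝ}
    (hp : 0 < p) : ∫⁻ y, ‖cpyB b c r φ y‖ₑ ^ p =
      ‖b‖ₑ ^ p * (ENNReal.ofReal (r ^ m) * ∫⁻ y, ‖φ y‖ₑ ^ p) := by
  unfold cpyB
  simp only [enorm_mul, ENNReal.mul_rpow_of_nonneg _ _ hp.le]
  rw [lintegral_const_mul' _ _ (ENNReal.rpow_ne_top_of_nonneg hp.le enorm_ne_top),
    lint_scaleB hr c (fun u => ‖φ u‖ₑ ^ p)]

lemma ftm_cpyB (b : ℂ) (c : Fin m → ℝ) {r : ℝ} (hr : 0 < r) (φ : (Fin m → ℝ) → ℂ)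
    (η : Fin m → ℝ) : ‖ftm m (cpyB b c r φ) η‖ = ‖b‖ * r ^ m * ‖ftm m φ (r • η)‖ := by
  have h1 : ftm m (cpyB b c r φ) η =
      (b * e (-(∑ i, c i * η i))) * ((r ^ m : ℝ) • ftm m φ (r • η)) := by
    have e1 : ∀ y : Fin m → ℝ, e (-(∑ i, y i * η i)) * cpyB b c r φ y =
        (b * e (-(∑ i, c i * η i))) *
          (fun u : Fin m → ℝ => e (-(∑ i, u i * (r • η) i)) * φ u) (r⁻¹ • (y - c)) := by
      intro y
      unfold cpyB
      have e2 : e (-(∑ i, y i * η i)) = e (-(∑ i, c i * η i)) *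
          e (-(∑ i, (r⁻¹ • (y - c)) i * (r • η) i)) := by
        unfold e
        rw [← Complex.exp_add]
        congr 1
        rw [← add_mul, ← Complex.ofReal_add]
        congr 2
        rw [← mul_add]
        congr 1
        rw [← neg_add, ← Finset.sum_add_distrib]
        congr 1
        refine Finset.sum_congr rfl fun i _ => ?_
        simp only [Pi.smul_apply, Pi.sub_apply, smul_eq_mul]
        field_simp
        ring
      rw [e2]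
      simp only
      ring
    unfold ftm
    simp only [e1]
    rw [integral_const_mul]
    congr 1
    have h2 : ∫ y : Fin m → ℝ, (fun u : Fin m → ℝ => e (-(∑ i, u i * (r • η) i)) * φ u)
        (r⁻¹ • (y - c)) = ∫ y : Fin m → ℝ,
          (fun u : Fin m → ℝ => e (-(∑ i, u i * (r • η) i)) * φ u) (r⁻¹ • y) :=
      integral_sub_right_eq_self (fun y : Fin m → ℝ =>
        (fun u : Fin m → ℝ => e (-(∑ i, u i * (r • η) i)) * φ u) (r⁻¹ • y)) c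
    have h3 := Measure.integral_comp_smul (volume : Measure (Fin m → ℝ))
      (fun u : Fin m → ℝ => e (-(∑ i, u i * (r • η) i)) * φ u) r⁻¹
    refine (h2.trans h3).trans ?_
    congr 1
    rw [Module.finrank_fin_fun, inv_pow, inv_inv, abs_of_nonneg (by positivity)]
  rw [h1, norm_mul, norm_mul, norm_e, mul_one, norm_smul, Real.norm_of_nonneg (by positivity)]
  ring

lemma DecA_cpy (α : ℝ) (b : ℂ) (c : Fin m → ℝ) {r : ℝ} (hr : 0 < r) (φ : (Fin m → ℝ) → ℂ) :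
    DecA α (cpyB b c r φ) ≤ ‖b‖ₑ * ENNReal.ofReal (r ^ ((m : ℝ) - α)) * DecA α φ := by
  refine iSup_le fun η => ?_
  change ENNReal.ofReal (nr η ^ α) * ‖ftm m (cpyB b c r φ) η‖ₑ ≤ _
  have h1 := DecA_le α φ (r • η)
  rw [nr_smul r hr.le, Real.mul_rpow hr.le (nr_nonneg η)] at h1
  have hn : 0 ≤ nr η ^ α := Real.rpow_nonneg (nr_nonneg η) _
  have h2 : ENNReal.ofReal (nr η ^ α) * ‖ftm m (cpyB b c r φ) η‖ₑ =
      ‖b‖ₑ * ENNReal.ofReal (r ^ ((m : ℝ) - α)) *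
        (ENNReal.ofReal (r ^ α * nr η ^ α) * ‖ftm m φ (r • η)‖ₑ) := by
    rw [← ofReal_norm (ftm m (cpyB b c r φ) η), ftm_cpyB b c hr φ η, ← ofReal_norm b,
      ← ofReal_norm (ftm m φ (r • η)), ← ENNReal.ofReal_mul hn,
      ← ENNReal.ofReal_mul (norm_nonneg _), ← ENNReal.ofReal_mul (by positivity),
      ← ENNReal.ofReal_mul (by positivity)]
    congr 1
    have e1 : r ^ m = r ^ ((m : ℝ) - α) * r ^ α := by
      rw [← Real.rpow_add hr, ← Real.rpow_natCast]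
      congr 1; ring
    rw [e1]
    ring
  rw [h2]
  gcongr

/-- the constant -/
noncomputable def LB (m : ℕ) (α γ p R K : ℝ) : ℝ :=
  (R ^ (((m : ℝ) - α) * (p - 2) - γ) * K ^ (p - 1) + R ^ (((m : ℝ) - α) * p - m) * K ^ p) * K

/-- copies of bounded size -/
theorem cpyB_cond (p α γ : ℝ) (hp : 2 < p)
    (hαp : α * p < m * (p - 1)) (hγ : γ ≤ ((m : ℝ) - α) * (p - 2)) (R K : ℝ) (hR : 0 < R)
    (hK : 0 < K) (b : ℂ) (c : Fin m → ℝ) (r : ℝ) (φ : (Fin m → ℝ) → ℂ) (hr : 0 < r)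
    (hrR : r ≤ R) (h1 : Bes γ φ ≤ ENNReal.ofReal K) (h2 : DecA α φ ≤ ENNReal.ofReal K)
    (h3 : 1 ≤ ENNReal.ofReal K * ∫⁻ y, ‖φ y‖ₑ ^ p) :
    NB α γ p (cpyB b c r φ) ≤
      ENNReal.ofReal (LB m α γ p R K) * ∫⁻ y, ‖cpyB b c r φ y‖ₑ ^ p := by
  have hp2 : 0 < p - 2 := by linarith
  have hp0 : 0 < p := by linarith
  have hexp1 : 0 ≤ ((m : ℝ) - α) * (p - 2) - γ := by linarith
  have hexp2 : 0 ≤ ((m : ℝ) - α) * p - m := by nlinarith
  have a2 : Bes γ (cpyB b c r φ) ≤ ‖b‖ₑ ^ 2 * ENNReal.ofReal (r ^ ((m : ℝ) - γ) * K) := by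
    refine (Bes_cpy γ b c hr φ).trans ?_
    rw [ENNReal.ofReal_mul (by positivity), ← mul_assoc]
    gcongr
  have a3 : DecA α (cpyB b c r φ) ≤ ‖b‖ₑ * ENNReal.ofReal (r ^ ((m : ℝ) - α) * K) := by
    refine (DecA_cpy α b c hr φ).trans ?_
    rw [ENNReal.ofReal_mul (by positivity), ← mul_assoc]
    gcongr
  rw [lp_cpyB b c hr φ hp0]
  have hb : ‖b‖ₑ ^ (p - 2) * ‖b‖ₑ ^ 2 = ‖b‖ₑ ^ p := by
    by_cases hb0 : ‖b‖ₑ = 0
    · rw [hb0, ENNReal.zero_rpow_of_pos hp0]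
      simp
    · rw [← ENNReal.rpow_natCast, ← ENNReal.rpow_add _ _ hb0 enorm_ne_top]
      congr 1; push_cast; ring
  calc NB α γ p (cpyB b c r φ)
      ≤ (‖b‖ₑ * ENNReal.ofReal (r ^ ((m : ℝ) - α) * K)) ^ (p - 2) *
          (‖b‖ₑ ^ 2 * ENNReal.ofReal (r ^ ((m : ℝ) - γ) * K) +
            (‖b‖ₑ * ENNReal.ofReal (r ^ ((m : ℝ) - α) * K)) ^ 2) := by
        unfold NB
        gcongr
    _ = ‖b‖ₑ ^ p * ENNReal.ofReal ((r ^ ((m : ℝ) - α) * K) ^ (p - 2) *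
          (r ^ ((m : ℝ) - γ) * K + (r ^ ((m : ℝ) - α) * K) ^ 2)) := by
        rw [ENNReal.mul_rpow_of_nonneg _ _ hp2.le, ENNReal.ofReal_rpow_of_pos (by positivity),
          ENNReal.ofReal_mul (p := (r ^ ((m : ℝ) - α) * K) ^ (p - 2)) (by positivity),
          ENNReal.ofReal_add (by positivity) (by positivity), mul_pow,
          ENNReal.ofReal_pow (by positivity), ← hb]
        ring
    _ ≤ ‖b‖ₑ ^ p * ENNReal.ofReal ((R ^ (((m : ℝ) - α) * (p - 2) - γ) * K ^ (p - 1) +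
          R ^ (((m : ℝ) - α) * p - m) * K ^ p) * r ^ m) := by
        refine mul_le_mul_right (ENNReal.ofReal_le_ofReal ?_) _
        have e2 : K ^ (p - 1) = K ^ (p - 2) * K := by
          rw [← Real.rpow_add_one hK.ne']
          congr 1; ring
        have e2' : K ^ p = K ^ (p - 2) * K ^ 2 := by
          rw [← Real.rpow_natCast K 2, ← Real.rpow_add hK]
          congr 1; push_cast; ring
        have e3 : r ^ (((m : ℝ) - α) * (p - 2)) * r ^ ((m : ℝ) - γ) =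
            r ^ (((m : ℝ) - α) * (p - 2) - γ) * r ^ m := by
          rw [← Real.rpow_natCast r m, ← Real.rpow_add hr, ← Real.rpow_add hr]
          congr 1; ring
        have e4 : r ^ (((m : ℝ) - α) * (p - 2)) * (r ^ ((m : ℝ) - α)) ^ 2 =
            r ^ (((m : ℝ) - α) * p - m) * r ^ m := by
          rw [← Real.rpow_natCast r m, ← Real.rpow_natCast (r ^ ((m : ℝ) - α)) 2,
            ← Real.rpow_mul hr.le, ← Real.rpow_add hr, ← Real.rpow_add hr]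
          congr 1; push_cast; ring
        have e1 : (r ^ ((m : ℝ) - α) * K) ^ (p - 2) *
            (r ^ ((m : ℝ) - γ) * K + (r ^ ((m : ℝ) - α) * K) ^ 2) =
            (r ^ (((m : ℝ) - α) * (p - 2) - γ) * K ^ (p - 1) +
              r ^ (((m : ℝ) - α) * p - m) * K ^ p) * r ^ m := by
          rw [Real.mul_rpow (by positivity) hK.le, ← Real.rpow_mul hr.le, e2, e2']
          calc r ^ (((m : ℝ) - α) * (p - 2)) * K ^ (p - 2) *
              (r ^ ((m : ℝ) - γ) * K + (r ^ ((m : ℝ) - α) * K) ^ 2)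
              = (r ^ (((m : ℝ) - α) * (p - 2)) * r ^ ((m : ℝ) - γ)) * (K ^ (p - 2) * K) +
                (r ^ (((m : ℝ) - α) * (p - 2)) * (r ^ ((m : ℝ) - α)) ^ 2) *
                  (K ^ (p - 2) * K ^ 2) := by ring
            _ = _ := by rw [e3, e4]; ring
        rw [e1]
        have e5 : r ^ (((m : ℝ) - α) * (p - 2) - γ) ≤ R ^ (((m : ℝ) - α) * (p - 2) - γ) :=
          Real.rpow_le_rpow hr.le hrR hexp1
        have e6 : r ^ (((m : ℝ) - α) * p - m) ≤ R ^ (((m : ℝ) - α) * p - m) :=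
          Real.rpow_le_rpow hr.le hrR hexp2
        gcongr
    _ = ENNReal.ofReal (R ^ (((m : ℝ) - α) * (p - 2) - γ) * K ^ (p - 1) +
          R ^ (((m : ℝ) - α) * p - m) * K ^ p) *
          (‖b‖ₑ ^ p * (ENNReal.ofReal (r ^ m) * 1)) := by
        rw [ENNReal.ofReal_mul (by positivity)]
        ring
    _ ≤ ENNReal.ofReal (R ^ (((m : ℝ) - α) * (p - 2) - γ) * K ^ (p - 1) +
          R ^ (((m : ℝ) - α) * p - m) * K ^ p) *
          (‖b‖ₑ ^ p * (ENNReal.ofReal (r ^ m) * (ENNReal.ofReal K * ∫⁻ y, ‖φ y‖ₑ ^ p))) := by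
        gcongr
    _ = _ := by
        unfold LB
        rw [ENNReal.ofReal_mul (p := R ^ (((m : ℝ) - α) * (p - 2) - γ) * K ^ (p - 1) +
          R ^ (((m : ℝ) - α) * p - m) * K ^ p) (by positivity)]
        ring

/-- bumps -/
def BumpB (α γ p R K : ℝ) (g : (Fin m → ℝ) → ℂ) : Prop :=
  ∃ (b : ℂ) (c : Fin m → ℝ) (r : ℝ) (φ : (Fin m → ℝ) → ℂ), 0 < r ∧ r ≤ R ∧ Integrable φ ∧
    Bes γ φ ≤ ENNReal.ofReal K ∧ DecA α φ ≤ ENNReal.ofReal K ∧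
    1 ≤ ENNReal.ofReal K * ∫⁻ y, ‖φ y‖ₑ ^ p ∧ g = fun y => b * φ (r⁻¹ • (y - c))

/-- the atomic norm of a sum of bumps -/
theorem atm_bumps (p α γ : ℝ) (hp : 2 < p)
    (hαp : α * p < m * (p - 1)) (hγ : γ ≤ ((m : ℝ) - α) * (p - 2)) (R K Λ : ℝ) (hR : 0 < R)
    (hK : 0 < K) (hΛ : 0 < Λ) (g : (Fin m → ℝ) → ℂ) (a : ℕ → (Fin m → ℝ) → ℂ)
    (ha : ∀ j, BumpB α γ p R K (a j)) (hs : ∑' j, ∫⁻ y, ‖a j y‖ₑ ≠ ⊤)
    (hg : ∀ᵐ y, g y = ∑' j, a j y)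
    (hq : ∑' j, (∫⁻ y, ‖a j y‖ₑ ^ p) ^ (1 / p) ≤
      ENNReal.ofReal Λ * (∫⁻ y, ‖g y‖ₑ ^ p) ^ (1 / p)) :
    Atm α γ p g ^ p ≤ ENNReal.ofReal (LB m α γ p R K * Λ ^ p) * ∫⁻ y, ‖g y‖ₑ ^ p := by
  have hp0 : 0 < p := by linarith
  have h1p : 0 ≤ 1 / p := by positivity
  have hroot : ∀ x : ℝ≥0∞, (x ^ (1 / p)) ^ p = x := fun x => by
    rw [← ENNReal.rpow_mul, one_div_mul_cancel hp0.ne', ENNReal.rpow_one]
  have hai : ∀ j, Integrable (a j) := by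
    intro j
    obtain ⟨b, c, r, φ, hr, -, hφ, -, -, -, hj⟩ := ha j
    rw [hj]
    exact integrable_cpy b c hr hφ
  have hN : ∀ j, NB α γ p (a j) ≤ ENNReal.ofReal (LB m α γ p R K) * ∫⁻ y, ‖a j y‖ₑ ^ p := by
    intro j
    obtain ⟨b, c, r, φ, hr, hrR, hφ, h1, h2, h3, hj⟩ := ha j
    rw [hj]
    exact cpyB_cond p α γ hp hαp hγ R K hR hK b c r φ hr hrR h1 h2 h3
  have hL : 0 ≤ LB m α γ p R K := by unfold LB; positivity
  have h1 : Atm α γ p g ≤ ∑' j, NB α γ p (a j) ^ (1 / p) :=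
    (iInf_le _ a).trans (iInf_le _ ⟨hai, hs, hg⟩)
  have h2 : ∑' j, NB α γ p (a j) ^ (1 / p) ≤
      ENNReal.ofReal (LB m α γ p R K) ^ (1 / p) *
        (ENNReal.ofReal Λ * (∫⁻ y, ‖g y‖ₑ ^ p) ^ (1 / p)) := by
    refine le_trans ?_ (mul_le_mul_right hq _)
    rw [← ENNReal.tsum_mul_left]
    refine ENNReal.tsum_le_tsum fun j => ?_
    rw [← ENNReal.mul_rpow_of_nonneg _ _ h1p]
    exact ENNReal.rpow_le_rpow (hN j) h1p
  calc Atm α γ p g ^ p ≤ (ENNReal.ofReal (LB m α γ p R K) ^ (1 / p) *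
        (ENNReal.ofReal Λ * (∫⁻ y, ‖g y‖ₑ ^ p) ^ (1 / p))) ^ p :=
        ENNReal.rpow_le_rpow (h1.trans h2) hp0.le
    _ = _ := by
        rw [ENNReal.mul_rpow_of_nonneg _ _ hp0.le, ENNReal.mul_rpow_of_nonneg _ _ hp0.le, hroot,
          hroot, ENNReal.ofReal_mul hL, ← ENNReal.ofReal_rpow_of_pos hΛ, mul_assoc]

end Pool.Agent.R77.LSB
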