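import Pool.Agent.R77.LSB.SliceM
set_option autoImplicit false

/-! # The slice inequality for an `L²` modulus of continuity and Fourier decay (helper77)
(adapted from `Pool.Agent.TH218.LS.Slice2`) -/

open MeasureTheory Set
open scoped ENNReal

namespace Pool.Agent.R77.LSB

open Pool.Agent.TH280.LS
open Pool.Agent.TH218.LS (nr_nonneg ftm_pl ftm_diff e_sub_one geom_sum)

variable {m : ℕ}

/-- the `L²` norm on a strip -/
lemma stripB {G : (Fin m → ℝ) → ℂ} {B γ : ℝ} (hG : Integrable G)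
    (hB : ∀ h : Fin m → ℝ, ∫⁻ y : Fin m → ℝ, ‖G (y + h) - G y‖ₑ ^ 2 ≤
      ENNReal.ofReal (B * nr h ^ γ)) (i : Fin m) (R : ℝ) (hR : 0 < R) :
    ∫⁻ η in {η : Fin m → ℝ | R ≤ |η i| ∧ |η i| ≤ 2 * R}, ‖ftm m G η‖ₑ ^ 2 ≤
      ENNReal.ofReal (B * (1 / (4 * R)) ^ γ) := by
  set h : Fin m → ℝ := Pi.single i (1 / (4 * R)) with hh
  set D : (Fin m → ℝ) → ℂ := fun y => G (y + h) - G y with hD
  have hDi : Integrable D := (hG.comp_add_right h).sub hG
  have hnr : nr h = 1 / (4 * R) := by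
    unfold nr
    have : ∑ j, h j ^ 2 = (1 / (4 * R)) ^ 2 := by
      rw [Finset.sum_eq_single i]
      · rw [hh, Pi.single_eq_same]
      · intro j _ hj
        rw [hh, Pi.single_eq_of_ne hj]
        norm_num
      · intro hi; exact absurd (Finset.mem_univ i) hi
    rw [this, Real.sqrt_sq (by positivity)]
  have hD2 : ∫⁻ y, ‖D y‖ₑ ^ 2 ≤ ENNReal.ofReal (B * (1 / (4 * R)) ^ γ) := by
    have := hB h
    rwa [hnr] at this
  have hmem : MemLp D 2 := by
    refine ⟨hDi.1, ?_⟩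
    rw [eLpNorm_lt_top_iff_lintegral_rpow_enorm_lt_top (by norm_num) (by norm_num)]
    have e1 : ∀ y, ‖D y‖ₑ ^ (2 : ℝ≥0∞).toReal = ‖D y‖ₑ ^ 2 := by
      intro y
      rw [ENNReal.toReal_ofNat, ENNReal.rpow_ofNat]
    simp only [e1]
    exact hD2.trans_lt ENNReal.ofReal_lt_top
  have hpl := ftm_pl D hDi hmem
  have hsum : ∀ η : Fin m → ℝ, ∑ j, h j * η j = η i / (4 * R) := by
    intro η
    rw [Finset.sum_eq_single i]
    · rw [hh, Pi.single_eq_same]; ring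
    · intro j _ hj
      rw [hh, Pi.single_eq_of_ne hj, zero_mul]
    · intro hi; exact absurd (Finset.mem_univ i) hi
  have hlow : ∫⁻ η in {η : Fin m → ℝ | R ≤ |η i| ∧ |η i| ≤ 2 * R}, ‖ftm m G η‖ₑ ^ 2 ≤
      ∫⁻ η, ‖ftm m D η‖ₑ ^ 2 := by
    refine le_trans ?_ (setLIntegral_le_lintegral {η : Fin m → ℝ | R ≤ |η i| ∧ |η i| ≤ 2 * R} _)
    refine setLIntegral_mono' ?_ ?_
    · have hc : Continuous (fun η : Fin m → ℝ => |η i|) := by fun_prop
      exact (measurableSet_le measurable_const hc.measurable).inter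
        (measurableSet_le hc.measurable measurable_const)
    · rintro η ⟨h1, h2⟩
      rw [hD, ftm_diff hG, hsum, enorm_mul, mul_pow]
      have h4R : 0 < 4 * R := by positivity
      have h3 := e_sub_one (η i / (4 * R)) (by
        rw [abs_div, abs_of_pos h4R, le_div_iff₀ h4R]; linarith) (by
        rw [abs_div, abs_of_pos h4R, div_le_iff₀ h4R]; linarith)
      have h5 : (1 : ℝ≥0∞) ≤ ‖e (η i / (4 * R)) - 1‖ₑ ^ 2 := by
        rw [← ofReal_norm, ← ENNReal.ofReal_pow (norm_nonneg _), ← ENNReal.ofReal_one]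
        exact ENNReal.ofReal_le_ofReal (by linarith)
      calc ‖ftm m G η‖ₑ ^ 2 = 1 * ‖ftm m G η‖ₑ ^ 2 := (one_mul _).symm
        _ ≤ _ := mul_le_mul_left h5 _
  refine hlow.trans ?_
  rw [hpl]
  exact hD2

lemma shellB_L2 {G : (Fin m → ℝ) → ℂ} {B γ : ℝ} (hG : Integrable G) (hB0 : 0 ≤ B)
    (hB : ∀ h : Fin m → ℝ, ∫⁻ y : Fin m → ℝ, ‖G (y + h) - G y‖ₑ ^ 2 ≤
      ENNReal.ofReal (B * nr h ^ γ)) (R : ℝ) (hR : 0 < R) :
    ∫⁻ η in Shm m R, ‖ftm m G η‖ₑ ^ 2 ≤ ENNReal.ofReal (m * (B * (1 / (4 * R)) ^ γ)) := by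
  have hsub : Shm m R ⊆ ⋃ i : Fin m, {η : Fin m → ℝ | R ≤ |η i| ∧ |η i| ≤ 2 * R} := by
    rintro η ⟨h1, h2⟩
    by_contra hcon
    have : ‖η‖ < R := by
      rw [pi_norm_lt_iff hR]
      intro i
      by_contra hc
      rw [not_lt] at hc
      exact hcon (mem_iUnion.2 ⟨i, hc, (norm_le_pi_norm η i).trans h2⟩)
    linarith
  refine (lintegral_mono_set hsub).trans ((lintegral_iUnion_le _ _).trans ?_)
  rw [tsum_fintype]
  refine (Finset.sum_le_sum fun i _ => stripB hG hB i R hR).trans (le_of_eq ?_)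
  rw [Finset.sum_const, Finset.card_univ, Fintype.card_fin, nsmul_eq_mul,
    ENNReal.ofReal_mul (p := (m : ℝ)) (by positivity), ENNReal.ofReal_natCast]

/-- high frequencies -/
lemma shellB_high (hm : 1 ≤ m) {G : (Fin m → ℝ) → ℂ} {B γ D α : ℝ} (hG : Integrable G)
    (hB0 : 0 ≤ B) (hB : ∀ h : Fin m → ℝ, ∫⁻ y : Fin m → ℝ, ‖G (y + h) - G y‖ₑ ^ 2 ≤
      ENNReal.ofReal (B * nr h ^ γ))
    (hD : ∀ η : Fin m → ℝ, nr η ^ α * ‖ftm m G η‖ ≤ D) (hα : 0 ≤ α)
    (p s2 : ℝ) (hp2 : 2 < p) (hs2 : 0 ≤ s2)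
    (R : ℝ) (hR : 0 < R) (hD0 : 0 ≤ D) :
    ∫⁻ η in Shm m R, ENNReal.ofReal ((nr η ^ m) ^ (p - 2) * kp m s2 η ^ p) *
      ‖ftm m G η‖ₑ ^ p ≤
      ENNReal.ofReal ((((2 * m : ℝ) ^ m) ^ (p - 2) * m * (1 / 4) ^ γ) * (D ^ (p - 2) * B) *
        R ^ (((m : ℝ) - α) * (p - 2) - γ - s2 * p)) := by
  have hm0 : (0 : ℝ) < m := by exact_mod_cast hm
  set c : ℝ := ((2 * m * R) ^ m) ^ (p - 2) * R ^ (-(s2 * p)) *
    (D / R ^ α) ^ (p - 2) with hc
  have hRm : 0 < R ^ α := by positivity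
  have hc0 : 0 ≤ c := by positivity
  have hpt : ∀ η ∈ Shm m R, ENNReal.ofReal ((nr η ^ m) ^ (p - 2) * kp m s2 η ^ p) *
      ‖ftm m G η‖ₑ ^ p ≤ ENNReal.ofReal c * ‖ftm m G η‖ₑ ^ 2 := by
    rintro η ⟨h1, h2⟩
    have hn1 : R ≤ nr η := h1.trans (norm_le_nrm η)
    have hn2 : nr η ≤ 2 * m * R := (nrm_le_norm η).trans (by nlinarith)
    have hnp : 0 < nr η := by linarith
    have hF : ‖ftm m G η‖ ≤ D / R ^ α := by
      rw [le_div_iff₀ hRm, mul_comm]
      refine le_trans ?_ (hD η)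
      exact mul_le_mul_of_nonneg_right (Real.rpow_le_rpow hR.le hn1 hα)
        (norm_nonneg _)
    rw [enorm_split _ hp2, ← mul_assoc, ← ENNReal.ofReal_mul (by
      have := (kpm_pos s2 η).le
      positivity)]
    refine mul_le_mul_left (ENNReal.ofReal_le_ofReal ?_) _
    have h3 : (nr η ^ m) ^ (p - 2) ≤ ((2 * m * R) ^ m) ^ (p - 2) :=
      Real.rpow_le_rpow (by positivity) (pow_le_pow_left₀ hnp.le hn2 _) (by linarith)
    have h4 : kp m s2 η ^ p ≤ R ^ (-(s2 * p)) := by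
      have h5 : kp m s2 η ≤ R ^ (-s2) := by
        unfold kp
        exact Real.rpow_le_rpow_of_nonpos hR (by linarith) (by linarith)
      have h6 := Real.rpow_le_rpow (kpm_pos s2 η).le h5 (by linarith : (0 : ℝ) ≤ p)
      rwa [← Real.rpow_mul hR.le, neg_mul] at h6
    have h7 : ‖ftm m G η‖ ^ (p - 2) ≤ (D / R ^ α) ^ (p - 2) :=
      Real.rpow_le_rpow (norm_nonneg _) hF (by linarith)
    refine mul_le_mul (mul_le_mul h3 h4 ?_ (by positivity)) h7 (by positivity) (by positivity)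
    exact Real.rpow_nonneg (kpm_pos s2 η).le _
  refine (setLIntegral_mono' (measurable_Shm R) hpt).trans ?_
  rw [lintegral_const_mul' _ _ ENNReal.ofReal_ne_top]
  refine (mul_le_mul_right (shellB_L2 hG hB0 hB R hR) _).trans ?_
  rw [← ENNReal.ofReal_mul hc0]
  refine ENNReal.ofReal_le_ofReal (le_of_eq ?_)
  have e1 : ((2 * m * R) ^ m) ^ (p - 2) = ((2 * m : ℝ) ^ m) ^ (p - 2) *
      R ^ ((m : ℝ) * (p - 2)) := by
    rw [mul_pow, Real.mul_rpow (by positivity) (by positivity), ← Real.rpow_natCast R m,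
      ← Real.rpow_mul hR.le]
  have e2 : (D / R ^ α) ^ (p - 2) = D ^ (p - 2) * R ^ (-(α * (p - 2))) := by
    rw [Real.div_rpow hD0 hRm.le, ← Real.rpow_mul hR.le, Real.rpow_neg hR.le]
    rfl
  have e4 : (1 / (4 * R)) ^ γ = (1 / 4) ^ γ * R ^ (-γ) := by
    rw [Real.rpow_neg hR.le, ← Real.inv_rpow hR.le, ← Real.mul_rpow (by norm_num) (by positivity)]
    congr 1
    field_simp
  have e3 : R ^ (((m : ℝ) - α) * (p - 2) - γ - s2 * p) =
      R ^ ((m : ℝ) * (p - 2)) * R ^ (-(α * (p - 2))) * R ^ (-(s2 * p)) * R ^ (-γ) := by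
    rw [← Real.rpow_add hR, ← Real.rpow_add hR, ← Real.rpow_add hR]
    congr 1; ring
  rw [hc, e1, e2, e3, e4]
  ring

/-- low frequencies -/
lemma shellB_low (hm : 1 ≤ m) {G : (Fin m → ℝ) → ℂ} {D α : ℝ}
    (hD : ∀ η : Fin m → ℝ, nr η ^ α * ‖ftm m G η‖ ≤ D)
    (p s2 : ℝ) (hp2 : 2 < p) (hs2 : 0 ≤ s2)
    (R : ℝ) (hR : 0 < R) (hD0 : 0 ≤ D) :
    ∫⁻ η in Shm m R, ENNReal.ofReal ((nr η ^ m) ^ (p - 2) * kp m s2 η ^ p) *
      ‖ftm m G η‖ₑ ^ p ≤
      ENNReal.ofReal (((2 * m : ℝ) ^ |(m : ℝ) * (p - 2) - α * p| * 4 ^ m) *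
        D ^ p * R ^ ((m : ℝ) * (p - 2) - α * p + m)) := by
  have hm0 : (0 : ℝ) < m := by exact_mod_cast hm
  have hm1 : (1 : ℝ) ≤ m := by exact_mod_cast hm
  set a : ℝ := (m : ℝ) * (p - 2) - α * p with ha
  have hpt : ∀ η ∈ Shm m R, ENNReal.ofReal ((nr η ^ m) ^ (p - 2) * kp m s2 η ^ p) *
      ‖ftm m G η‖ₑ ^ p ≤
      ENNReal.ofReal (D ^ p * ((2 * m : ℝ) ^ |a| * R ^ a)) := by
    rintro η ⟨h1, h2⟩
    have hn1 : R ≤ nr η := h1.trans (norm_le_nrm η)
    have hn2 : nr η ≤ 2 * m * R := (nrm_le_norm η).trans (by nlinarith)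
    have hnp : 0 < nr η := by linarith
    have hnm : 0 < nr η ^ α := by positivity
    have hF : ‖ftm m G η‖ ≤ D / nr η ^ α := by
      rw [le_div_iff₀ hnm, mul_comm]
      exact hD η
    rw [← ofReal_norm, ENNReal.ofReal_rpow_of_nonneg (norm_nonneg _) (by linarith),
      ← ENNReal.ofReal_mul (by
        have := (kpm_pos s2 η).le
        positivity)]
    refine ENNReal.ofReal_le_ofReal ?_
    have h3 : kp m s2 η ^ p ≤ 1 :=
      Real.rpow_le_one (kpm_pos s2 η).le (kpm_le_one hs2 η) (by linarith)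
    have h4 : ‖ftm m G η‖ ^ p ≤ (D / nr η ^ α) ^ p :=
      Real.rpow_le_rpow (norm_nonneg _) hF (by linarith)
    have h6 : nr η ^ a ≤ (2 * m : ℝ) ^ |a| * R ^ a := by
      rcases le_total 0 a with h0 | h0
      · rw [abs_of_nonneg h0, ← Real.mul_rpow (by positivity) hR.le]
        exact Real.rpow_le_rpow hnp.le hn2 h0
      · have h7 : nr η ^ a ≤ R ^ a := Real.rpow_le_rpow_of_nonpos hR hn1 h0
        have h8 : (1 : ℝ) ≤ (2 * m : ℝ) ^ |a| :=
          Real.one_le_rpow (by linarith) (abs_nonneg _)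
        have h9 : 0 ≤ R ^ a := by positivity
        nlinarith
    calc (nr η ^ m) ^ (p - 2) * kp m s2 η ^ p * ‖ftm m G η‖ ^ p
        ≤ (nr η ^ m) ^ (p - 2) * 1 * (D / nr η ^ α) ^ p := by
          refine mul_le_mul (mul_le_mul_of_nonneg_left h3 (by positivity))
            h4 (by positivity) (by positivity)
      _ = D ^ p * nr η ^ a := by
          have e1 : (nr η ^ m) ^ (p - 2) = nr η ^ ((m : ℝ) * (p - 2)) := by
            rw [← Real.rpow_natCast (nr η) m, ← Real.rpow_mul hnp.le]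
          have e2 : (D / nr η ^ α) ^ p = D ^ p * nr η ^ (-(α * p)) := by
            rw [Real.div_rpow hD0 hnm.le, ← Real.rpow_mul hnp.le, Real.rpow_neg hnp.le]
            rfl
          have e4 : nr η ^ a = nr η ^ ((m : ℝ) * (p - 2)) * nr η ^ (-(α * p)) := by
            rw [← Real.rpow_add hnp]
            congr 1
          rw [e1, e2, e4]
          ring
      _ ≤ D ^ p * ((2 * m : ℝ) ^ |a| * R ^ a) :=
          mul_le_mul_of_nonneg_left h6 (by positivity)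
  refine (setLIntegral_mono' (measurable_Shm R) hpt).trans ?_
  rw [setLIntegral_const]
  have hvol : volume (Shm m R) ≤ ENNReal.ofReal (4 ^ m * R ^ m) := by
    have hsub : Shm m R ⊆ Metric.closedBall 0 (2 * R) := by
      rintro η ⟨h1, h2⟩
      rwa [mem_closedBall_zero_iff]
    refine (measure_mono hsub).trans ?_
    rw [Real.volume_pi_closedBall _ (by positivity)]
    refine ENNReal.ofReal_le_ofReal (le_of_eq ?_)
    simp only [Fintype.card_fin]
    rw [← mul_pow]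
    congr 1; ring
  refine (mul_le_mul_right hvol _).trans ?_
  rw [← ENNReal.ofReal_mul (by positivity)]
  refine ENNReal.ofReal_le_ofReal (le_of_eq ?_)
  have h5 : R ^ (a + m) = R ^ a * R ^ m := by
    rw [← Real.rpow_natCast R m, ← Real.rpow_add hR]
  rw [h5]
  ring

/-- the slice inequality -/
theorem sliceB (hm : 1 ≤ m) (p s2 α γ : ℝ) (hp2 : 2 < p) (hs2 : 0 ≤ s2) (hα : 0 ≤ α)
    (hαp : α * p < m * (p - 1)) (hs : ((m : ℝ) - α) * (p - 2) - γ < s2 * p) :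
    ∃ C : ℝ, 0 < C ∧ ∀ (G : (Fin m → ℝ) → ℂ) (B D : ℝ), Integrable G →
    (∀ h : Fin m → ℝ, ∫⁻ y : Fin m → ℝ, ‖G (y + h) - G y‖ₑ ^ 2 ≤
      ENNReal.ofReal (B * nr h ^ γ)) →
    (∀ η : Fin m → ℝ, nr η ^ α * ‖ftm m G η‖ ≤ D) → 0 ≤ B → 0 ≤ D →
    ∫⁻ η : Fin m → ℝ, ENNReal.ofReal ((nr η ^ m) ^ (p - 2) * kp m s2 η ^ p) *
      ‖ftm m G η‖ₑ ^ p ≤ ENNReal.ofReal (C * (D ^ (p - 2) * (B + D ^ 2))) := by
  have hp0 : 0 < p := by linarith
  have hm0 : (0 : ℝ) < m := by exact_mod_cast hm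
  have hneg : ((m : ℝ) - α) * (p - 2) - γ - s2 * p < 0 := by linarith
  have hpos : 0 < (m : ℝ) * (p - 2) - α * p + m := by nlinarith
  set q : ℝ := (2 : ℝ) ^ (((m : ℝ) - α) * (p - 2) - γ - s2 * p) with hq
  have hq0 : 0 ≤ q := by positivity
  have hq1 : q < 1 := Real.rpow_lt_one_of_one_lt_of_neg (by norm_num) hneg
  set q' : ℝ := (2 : ℝ) ^ (-((m : ℝ) * (p - 2) - α * p + m)) with hq'
  have hq0' : 0 ≤ q' := by positivity
  have hq1' : q' < 1 := Real.rpow_lt_one_of_one_lt_of_neg (by norm_num) (by linarith)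
  set K1 : ℝ := ((2 * m : ℝ) ^ m) ^ (p - 2) * m * (1 / 4) ^ γ with hK1
  set K2 : ℝ := (2 * m : ℝ) ^ |(m : ℝ) * (p - 2) - α * p| * 4 ^ m with hK2
  have hK1p : 0 < K1 := by positivity
  have hK2p : 0 < K2 := by positivity
  refine ⟨K1 / (1 - q) + K2 / (1 - q'), ?_, ?_⟩
  · have : 0 < 1 - q := by linarith
    have : 0 < 1 - q' := by linarith
    positivity
  intro G B D hG hB hD hB0 hD0
  have hcov : (Set.univ : Set (Fin m → ℝ)) ⊆
      {0} ∪ ((⋃ k : ℕ, Shm m (2 ^ k)) ∪ (⋃ k : ℕ, Shm m ((2 ^ (k + 1))⁻¹))) := by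
    intro η _
    by_cases h0 : η = 0
    · left; exact h0
    right
    have hpos : 0 < ‖η‖ := norm_pos_iff.2 h0
    rcases le_total 1 ‖η‖ with h1 | h1
    · left
      obtain ⟨n, hn1, hn2⟩ := exists_nat_pow_near h1 (by norm_num : (1 : ℝ) < 2)
      refine mem_iUnion.2 ⟨n, hn1, hn2.le.trans (le_of_eq ?_)⟩
      rw [pow_succ]; ring
    · right
      have h2 : 1 ≤ ‖η‖⁻¹ := (one_le_inv₀ hpos).2 h1
      obtain ⟨n, hn1, hn2⟩ := exists_nat_pow_near h2 (by norm_num : (1 : ℝ) < 2)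
      refine mem_iUnion.2 ⟨n, ?_, ?_⟩
      · rw [inv_le_comm₀ (by positivity) hpos]
        exact hn2.le
      · have h3 : ‖η‖ ≤ (2 ^ n)⁻¹ := by
          rw [le_inv_comm₀ hpos (by positivity)]
          exact hn1
        refine h3.trans (le_of_eq ?_)
        rw [pow_succ]
        field_simp
  have : Nonempty (Fin m) := ⟨⟨0, by omega⟩⟩
  set f : (Fin m → ℝ) → ℝ≥0∞ := fun η =>
    ENNReal.ofReal ((nr η ^ m) ^ (p - 2) * kp m s2 η ^ p) * ‖ftm m G η‖ₑ ^ p with hf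
  have h1 : ∫⁻ η, f η ≤ (∫⁻ η in ({0} : Set (Fin m → ℝ)), f η) +
      ((∑' k : ℕ, ∫⁻ η in Shm m (2 ^ k), f η) +
        ∑' k : ℕ, ∫⁻ η in Shm m ((2 ^ (k + 1))⁻¹), f η) := by
    rw [← setLIntegral_univ]
    refine (lintegral_mono_set hcov).trans ((lintegral_union_le _ _ _).trans ?_)
    refine add_le_add le_rfl ((lintegral_union_le _ _ _).trans ?_)
    exact add_le_add (lintegral_iUnion_le _ _) (lintegral_iUnion_le _ _)
  have h2 : ∫⁻ η in ({0} : Set (Fin m → ℝ)), f η = 0 :=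
    setLIntegral_measure_zero _ _ (measure_singleton _)
  have h3 : ∑' k : ℕ, ∫⁻ η in Shm m (2 ^ k), f η ≤
      ENNReal.ofReal (K1 * (D ^ (p - 2) * B) / (1 - q)) := by
    rw [← geom_sum (K1 * (D ^ (p - 2) * B)) q (by positivity) hq0 hq1]
    refine ENNReal.tsum_le_tsum fun k => ?_
    refine (shellB_high hm hG hB0 hB hD hα p s2 hp2 hs2 (2 ^ k) (by positivity) hD0).trans ?_
    refine ENNReal.ofReal_le_ofReal (le_of_eq ?_)
    congr 1
    rw [hq, ← Real.rpow_natCast 2 k, ← Real.rpow_mul (by norm_num), ← Real.rpow_natCast,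
      ← Real.rpow_mul (by norm_num)]
    congr 1; ring
  have h4 : ∑' k : ℕ, ∫⁻ η in Shm m ((2 ^ (k + 1))⁻¹), f η ≤
      ENNReal.ofReal (K2 * D ^ p / (1 - q')) := by
    rw [← geom_sum (K2 * D ^ p) q' (by positivity) hq0' hq1']
    refine ENNReal.tsum_le_tsum fun k => ?_
    refine (shellB_low hm hD p s2 hp2 hs2 ((2 ^ (k + 1))⁻¹) (by positivity)
      hD0).trans ?_
    refine ENNReal.ofReal_le_ofReal (mul_le_mul_of_nonneg_left ?_ (by positivity))
    have h5 : ((2 : ℝ) ^ (k + 1))⁻¹ ^ ((m : ℝ) * (p - 2) - α * p + m) = q' ^ (k + 1) := by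
      rw [hq', Real.inv_rpow (by positivity), ← Real.rpow_natCast 2 (k + 1),
        ← Real.rpow_mul (by norm_num), ← Real.rpow_natCast, ← Real.rpow_mul (by norm_num),
        ← Real.rpow_neg (by norm_num)]
      congr 1; ring
    rw [h5]
    exact pow_le_pow_of_le_one hq0' hq1'.le (Nat.le_succ k)
  refine h1.trans ?_
  rw [h2, zero_add]
  refine (add_le_add h3 h4).trans ?_
  have hq2 : 0 < 1 - q := by linarith
  have hq2' : 0 < 1 - q' := by linarith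
  rw [← ENNReal.ofReal_add (by positivity) (by positivity)]
  refine ENNReal.ofReal_le_ofReal ?_
  have h6 : 0 ≤ D ^ (p - 2) * B := by positivity
  have h7 : 0 ≤ D ^ p := by positivity
  have h8 : 0 ≤ K1 / (1 - q) := by positivity
  have h9 : 0 ≤ K2 / (1 - q') := by positivity
  have e1 : K1 * (D ^ (p - 2) * B) / (1 - q) = K1 / (1 - q) * (D ^ (p - 2) * B) := by
    ring
  have e2 : K2 * D ^ p / (1 - q') = K2 / (1 - q') * D ^ p := by
    ring
  have e3 : D ^ (p - 2) * (B + D ^ 2) = D ^ (p - 2) * B + D ^ p := by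
    have e4 : D ^ p = D ^ (p - 2) * D ^ 2 := by
      rw [← Real.rpow_natCast D 2, ← Real.rpow_add_of_nonneg hD0 (by linarith) (by norm_num)]
      congr 1
      push_cast; ring
    rw [e4]; ring
  rw [e1, e2, e3]
  nlinarith [mul_nonneg h8 h7, mul_nonneg h9 h6]

end Pool.Agent.R77.LSB
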